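import Pool.Agent.CpB.Names

/-!
# Boolean valued models: a strong limit fixed point of the aleph function of uncountable
cofinality, and the number of names (helper7)
-/

set_option autoImplicit false

namespace CpB

open CofSN Cardinal Ordinal

/-- a strong limit fixed point of the alephs, of uncountable cofinality -/
theorem exists_fix : ∃ c : Cardinal.{0}, ℵ₀ < c ∧ c.IsStrongLimit ∧
    (∀ o < c.ord, ℵ_ (o + 1) < c) ∧ ℵ₀ < c.ord.cof := by
  let g : Ordinal.{0} → Ordinal.{0} := fun o => (ℶ_ o).ord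
  have hg : Order.IsNormal g := isNormal_ord.comp isNormal_beth
  let a : Ordinal.{0} := deriv g (ℵ₁ : Cardinal.{0}).ord
  have ha : g a = a := deriv_fp hg _
  have hord : (ℶ_ a).ord = a := ha
  have h0 : ℵ₀ ≤ ℶ_ a := aleph0_le_beth a
  have hlim : Order.IsSuccLimit a := by
    have h := isSuccLimit_ord h0
    rwa [hord] at h
  have h1lim : Order.IsSuccLimit (ℵ₁ : Cardinal.{0}).ord := isSuccLimit_ord aleph0_lt_aleph_one.le
  have hcof : a.cof = ℵ₁ := by
    have h := cof_map_of_isNormal (isNormal_deriv g) h1lim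
    rw [isRegular_aleph_one.cof_ord] at h
    exact h
  have hlt : ∀ o < a, ℵ_ (o + 1) < ℶ_ a := by
    intro o ho
    have h1 : o + 1 < a := by
      rw [← Order.succ_eq_add_one]
      exact hlim.succ_lt ho
    exact (aleph_le_beth _).trans_lt (beth_lt_beth.2 h1)
  refine ⟨ℶ_ a, ?_, isStrongLimit_beth.2 hlim.isSuccPrelimit, ?_, ?_⟩
  · have h1 : (0 : Ordinal.{0}) < a := hlim.bot_lt
    have h2 := hlt 0 h1
    rw [zero_add] at h2
    exact aleph0_lt_aleph_one.trans h2
  · rw [hord]
    exact hlt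
  · rw [hord, hcof]
    exact aleph0_lt_aleph_one

section count

variable {c : Cardinal.{0}}

/-- the number of countable subsets -/
theorem card_ctbl (hc : c.IsStrongLimit) (hcof : ℵ₀ < c.ord.cof) {α : Type} (hα : #α ≤ c) :
    #{A : Set α // #A ≤ ℵ₀} ≤ c := by
  have h1 : #{s : Set c.out // #s < c.ord.cof} = c := by
    have h2 : IsStrongPrelimit #c.out := by
      rw [mk_out]
      exact hc.isStrongPrelimit
    have h3 := mk_subset_mk_lt_cof h2
    rw [mk_out] at h3
    exact h3
  obtain ⟨j⟩ : #α ≤ #c.out := by rw [mk_out]; exact hα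
  rw [← h1]
  refine Cardinal.mk_le_of_injective (f := fun A => ⟨j '' A.1, ?_⟩) ?_
  · exact (Cardinal.mk_image_le.trans A.2).trans_lt hcof
  · intro A A' h
    have h2 : j '' A.1 = j '' A'.1 := congrArg Subtype.val h
    exact Subtype.ext (j.injective.image_injective h2)

/-- the number of sequences -/
theorem card_seq (hc : c.IsStrongLimit) (hcof : ℵ₀ < c.ord.cof) {ι α : Type} [Countable ι]
    (hα : #α ≤ c) : #(ι → α) ≤ c := by
  have h0 : ℵ₀ ≤ c := hc.aleph0_le
  have h1 : #(ι × α) ≤ c := by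
    rw [mk_prod, Cardinal.lift_id, Cardinal.lift_id]
    exact (mul_le_mul' (mk_le_aleph0.trans h0) hα).trans (mul_eq_self h0).le
  refine le_trans ?_ (card_ctbl hc hcof h1)
  refine Cardinal.mk_le_of_injective (f := fun f => ⟨Set.range fun i => (i, f i), ?_⟩) ?_
  · have : (Set.range fun i => (i, f i)).Countable := Set.countable_range _
    exact Cardinal.mk_le_aleph0_iff.2 this.to_subtype
  · intro f g h
    have h2 : (Set.range fun i => (i, f i)) = Set.range fun i => (i, g i) :=
      congrArg Subtype.val h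
    funext i
    have h3 : (i, f i) ∈ Set.range fun i => (i, g i) := h2 ▸ Set.mem_range_self i
    obtain ⟨k, hk⟩ := h3
    obtain ⟨h4, h5⟩ := Prod.mk.inj hk
    subst h4
    exact h5.symm

end count

/-- regular sets are generated by antichains -/
theorem exists_gen {X M : Type} {μ : Cardinal.{0}} (h0 : ℵ₀ ≤ μ) (hM : #M ≤ μ)
    (U : RO (Fc X M)) : ∃ A : Set (Fc X M), #A ≤ μ ∧ U = RO.gen A := by
  classical
  obtain ⟨A, hA⟩ := zorn_subset {A : Set (Fc X M) | (∀ a ∈ A, a ∈ U) ∧
    ∀ a ∈ A, ∀ b ∈ A, a ≠ b → ¬ Fc.Comp a b} (by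
      intro c hc hch
      refine ⟨⋃₀ c, ⟨?_, ?_⟩, fun s hs => Set.subset_sUnion_of_mem hs⟩
      · rintro a ⟨s, hs, ha⟩
        exact (hc hs).1 a ha
      · rintro a ⟨s, hs, ha⟩ b ⟨t, ht, hb⟩ hab
        rcases hch.total hs ht with h | h
        · exact (hc ht).2 a (h ha) b hb hab
        · exact (hc hs).2 a ha b (h hb) hab)
  have hA1 := hA.prop.1
  have hA2 := hA.prop.2
  have hA3 : ∀ p ∈ U, ∃ a ∈ A, Fc.Comp p a := by
    intro p hp
    by_contra hcon
    push Not at hcon
    have h1 : insert p A ∈ {A : Set (Fc X M) | (∀ a ∈ A, a ∈ U) ∧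
        ∀ a ∈ A, ∀ b ∈ A, a ≠ b → ¬ Fc.Comp a b} := by
      constructor
      · intro a ha
        rcases ha with rfl | ha
        · exact hp
        · exact hA1 a ha
      · intro a ha b hb hab
        rcases ha with rfl | ha
        · rcases hb with rfl | hb
          · exact absurd rfl hab
          · exact hcon b hb
        · rcases hb with rfl | hb
          · rintro ⟨r, h1, h2⟩
            exact hcon a ha ⟨r, h2, h1⟩
          · exact hA2 a ha b hb hab
    have h2 := hA.le_of_ge h1 (Set.subset_insert p A)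
    exact hcon p (h2 (Set.mem_insert p A)) ⟨p, le_rfl, le_rfl⟩
  refine ⟨A, Fc.antichain_card h0 hM (fun a : A => (a : Fc X M))
    (fun a b hab => hA2 a a.2 b b.2 fun h => hab (Subtype.ext h)), ?_⟩
  refine RO.ext_mem fun p => ?_
  constructor
  · intro hp
    refine RO.mem_gen.2 fun q hq => ?_
    obtain ⟨a, ha, r, hr1, hr2⟩ := hA3 q (RO.mem_down hp hq)
    exact ⟨r, hr1, a, ha, hr2⟩
  · intro hp
    refine RO.mem_reg fun q hq => ?_
    obtain ⟨r, hr, a, ha, hra⟩ := RO.mem_gen.1 hp q hq
    exact ⟨r, hr, RO.mem_down (hA1 a ha) hra⟩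

/-- the number of conditions -/
theorem card_Fc {X M : Type} {c : Cardinal.{0}} (h0 : ℵ₀ ≤ c) (hX : #X ≤ c) (hM : #M ≤ c) :
    #(Fc X M) ≤ c := by
  classical
  have h1 : #(X × M) ≤ c := by
    rw [mk_prod, Cardinal.lift_id, Cardinal.lift_id]
    exact (mul_le_mul' hX hM).trans (mul_eq_self h0).le
  have h2 : #(Finset (X × M)) ≤ c := by
    rcases finite_or_infinite (X × M) with h | h
    · exact (Cardinal.lt_aleph0_of_finite _).le.trans h0
    · rw [mk_finset_of_infinite]
      exact h1
  refine le_trans ?_ h2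
  have hfin : ∀ p : Fc X M, {y : X × M | p.f y.1 = some y.2}.Finite := by
    intro p
    refine Set.Finite.of_finite_image (f := Prod.fst) (p.fin.subset ?_) ?_
    · rintro x ⟨y, hy, rfl⟩
      have hy' : p.f y.1 = some y.2 := hy
      simp [hy']
    · rintro ⟨x, k⟩ hy ⟨x', k'⟩ hy' h
      have h3 : x = x' := h
      subst h3
      have h4 : p.f x = some k := hy
      have h5 : p.f x = some k' := hy'
      rw [h4] at h5
      rw [Option.some.inj h5]
  refine Cardinal.mk_le_of_injective (f := fun p => (hfin p).toFinset) ?_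
  intro p q h
  have h3 : ∀ y : X × M, p.f y.1 = some y.2 ↔ q.f y.1 = some y.2 := by
    intro y
    have h4 : y ∈ (hfin p).toFinset ↔ y ∈ (hfin q).toFinset := by
      have h5 : (hfin p).toFinset = (hfin q).toFinset := h
      rw [h5]
    simpa using h4
  refine Fc.ext (funext fun x => ?_)
  cases hp : p.f x with
  | some k => exact ((h3 (x, k)).1 hp).symm
  | none =>
    cases hq : q.f x with
    | none => rfl
    | some k =>
      have := (h3 (x, k)).2 hq
      simp only at this
      rw [hp] at this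
      exact absurd this (by simp)

/-- the number of names of reals -/
theorem card_names {Θ M : Type} {c : Cardinal.{0}} (hc : c.IsStrongLimit)
    (hcof : ℵ₀ < c.ord.cof) (hΘ : #Θ ≤ c) [Countable M] :
    #(Fun (RO (Po Θ M)) ℕ ℕ) ≤ c := by
  have h0 : ℵ₀ ≤ c := hc.aleph0_le
  have hM : #M ≤ ℵ₀ := mk_le_aleph0
  have h1 : #(Θ × ℕ) ≤ c := by
    rw [mk_prod, Cardinal.lift_id, Cardinal.lift_id]
    exact (mul_le_mul' hΘ (mk_nat.le.trans h0)).trans (mul_eq_self h0).le
  have h2 : #(Po Θ M) ≤ c := card_Fc h0 h1 (hM.trans h0)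
  have h3 : #(RO (Po Θ M)) ≤ c := by
    refine le_trans ?_ (card_ctbl hc hcof h2)
    have h4 := fun U : RO (Po Θ M) => exists_gen (le_refl ℵ₀) hM U
    choose A hA1 hA2 using h4
    refine Cardinal.mk_le_of_injective (f := fun U => ⟨A U, hA1 U⟩) ?_
    intro U V h
    have h5 : A U = A V := congrArg Subtype.val h
    rw [hA2 U, h5, ← hA2 V]
  have h4 : #(ℕ × ℕ → RO (Po Θ M)) ≤ c := card_seq hc hcof h3
  refine le_trans ?_ h4
  refine Cardinal.mk_le_of_injective (f := fun x => fun i => x.v i.1 i.2) ?_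
  intro x y h
  have h5 : x.v = y.v := by
    funext n k
    exact congrFun h (n, k)
  cases x
  cases y
  simp only at h5
  subst h5
  rfl

end CpB
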