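import Pool.Agent.CpB.Ideal

/-!
# MP_8b2a7f_lc: Boolean values of statements about slalom numbers (helper54)
-/

set_option autoImplicit false

namespace CpB

open Cardinal

variable {B : Type} [CompleteBooleanAlgebra B]

/-- The Boolean value of: `s` is an `h`-slalom, where `h` is a name of a function. -/
def slalomOf (h : Fun B ℕ ℕ) (s : Fun B ℕ (Finset ℕ)) : B :=
  ⨅ n, ⨆ k, ⨆ S, ⨆ (_ : S.card ≤ k), h.v n k ⊓ s.v n S

/-- The Boolean value of: `sl_e(h, J) = |K|`. That is: there is a family, indexed by `K`, of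
`h`-slaloms `s a` such that for every `x` one of the sets `{n : x(n) ∈ s a (n)}` is not in `J`;
and no family `s` of `h`-slaloms, indexed by a set `I` of smaller cardinality, has this property
(there is `x` with `{n : x(n) ∈ s i (n)} ∈ J` for all `i`). -/
def slEq (h : Fun B ℕ ℕ) (J : (ℕ → B) → B) (K : Type) : B :=
  (⨆ s : K → Fun B ℕ (Finset ℕ), (⨅ a, slalomOf h (s a)) ⊓ ⨅ x, ⨆ a, (J (inn x (s a)))ᶜ) ⊓
    ⨅ I : Type, ⨅ (_ : #I < #K), ⨅ s : I → Fun B ℕ (Finset ℕ),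
      (⨅ i, slalomOf h (s i)) ⇨ ⨆ x, ⨅ i, J (inn x (s i))

/-- The Boolean value of: the function `h` is nondecreasing. -/
def isMono (h : Fun B ℕ ℕ) : B := ⨅ n, ⨆ j, ⨆ k, ⨆ (_ : j ≤ k), h.v n j ⊓ h.v (n + 1) k

/-- The Boolean value of: the function `h` is unbounded. -/
def isUnbounded (h : Fun B ℕ ℕ) : B := ⨅ m, ⨆ n, ⨆ k, ⨆ (_ : m ≤ k), h.v n k

end CpB
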