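import Pool.Agent.CpB.Slalom
import Pool.Agent.CpB.SlDefs

/-!
# MP_8b2a7f_lc: gluing Boolean valued ideals along the branches of names of reals (helper54)

In the Boolean valued universe of `RO P`: from a family of ideals `J l` and pairwise different
reals `r l` we get ONE ideal `glue r J` and functions `hl (r l)` with
`sl_e(hl (r l), glue r J) = sl_e(id, J l)` for every `l`.
-/

set_option autoImplicit false

namespace CpB

open CofSN Cardinal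

/-- the list coded by a number -/
def tl (n : ℕ) : List ℕ := (Denumerable.eqv (List ℕ)).symm n

/-- the code of a list -/
def cd (t : List ℕ) : ℕ := Denumerable.eqv (List ℕ) t

theorem tl_cd (t : List ℕ) : tl (cd t) = t := Equiv.symm_apply_apply _ _

theorem cd_tl (n : ℕ) : cd (tl n) = n := Equiv.apply_symm_apply _ _

section RO

variable {P : Type} [Preorder P]

theorem mem_gen_down {R : Set P} (h : ∀ p q : P, q ≤ p → p ∈ R → q ∈ R) {p : P} :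
    p ∈ RO.gen R ↔ ∀ q ≤ p, ∃ r ≤ q, r ∈ R := by
  rw [RO.mem_gen]
  constructor
  · intro hp q hq
    obtain ⟨r, hr, s, hs, hrs⟩ := hp q hq
    exact ⟨r, hr, h _ _ hrs hs⟩
  · intro hp q hq
    obtain ⟨r, hr, hs⟩ := hp q hq
    exact ⟨r, hr, r, hs, le_rfl⟩

theorem mem_gen_of {R : Set P} (h : ∀ p q : P, q ≤ p → p ∈ R → q ∈ R) {p : P} (hp : p ∈ R) :
    p ∈ RO.gen R :=
  (mem_gen_down h).2 fun q hq => ⟨q, le_rfl, h _ _ hq hp⟩

theorem mem_ini {t : List ℕ} {r : Fun (RO P) ℕ ℕ} {p : P} :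
    p ∈ ini t r ↔ ∀ i : Fin t.length, p ∈ r.v i t[i] := by
  unfold ini
  rw [RO.mem_iInf]

theorem ini_uniq {t t' : List ℕ} {r : Fun (RO P) ℕ ℕ} {p : P} (h : p ∈ ini t r)
    (h' : p ∈ ini t' r) (hl : t.length = t'.length) : t = t' := by
  refine List.ext_getElem hl fun i h1 h2 => ?_
  exact Fun.uniq (mem_ini.1 h ⟨i, h1⟩) (mem_ini.1 h' ⟨i, h2⟩)

/-- every condition can be extended to one which decides an initial segment -/
theorem ini_decide (r : Fun (RO P) ℕ ℕ) (m : ℕ) : ∀ p : P, ∃ q ≤ p, ∃ t : List ℕ,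
    t.length = m ∧ q ∈ ini t r := by
  induction m with
  | zero =>
    intro p
    exact ⟨p, le_rfl, [], rfl, mem_ini.2 fun i => i.elim0⟩
  | succ m ih =>
    intro p
    obtain ⟨q, hq, t, ht, hqt⟩ := ih p
    obtain ⟨q', hq', a, ha⟩ := r.decide m q
    refine ⟨q', hq'.trans hq, t ++ [a], by simp [ht], mem_ini.2 fun i => ?_⟩
    obtain ⟨i, hi⟩ := i
    have hi' : i < m + 1 := by
      have : (t ++ [a]).length = m + 1 := by simp [ht]
      omega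
    rcases Nat.lt_succ_iff_lt_or_eq.1 hi' with h | h
    · have h1 : (t ++ [a])[i]'hi = t[i]'(by omega) := List.getElem_append_left (by omega)
      have h2 := RO.mem_down (mem_ini.1 hqt ⟨i, by omega⟩) hq'
      change q' ∈ r.v i ((t ++ [a])[i]'hi)
      rw [h1]
      exact h2
    · subst h
      have h1 : (t ++ [a])[i]'hi = a := by
        rw [List.getElem_append_right (by omega)]
        simp [ht]
      change q' ∈ r.v i ((t ++ [a])[i]'hi)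
      rw [h1]
      exact ha

/-! ### Names -/

/-- the name of a ground model function -/
def gr {β : Type} (g : ℕ → β) : Fun (RO P) ℕ β :=
  Fun.mk' (fun n b => {_p | b = g n}) (fun _ _ _ _ _ h => h)
    (fun _ _ _ _ h h' => h.trans h'.symm) (fun n p => ⟨p, le_rfl, g n, rfl⟩)

theorem mem_gr {β : Type} (g : ℕ → β) (n : ℕ) (p : P) :
    p ∈ (gr g : Fun (RO P) ℕ β).v n (g n) :=
  mem_gen_of (R := {_p | g n = g n}) (fun _ _ _ h => h) rfl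

/-- the conditions which force that `cond` has the value `b` -/
def condR {β : Type} (U : ℕ → RO P) (ρ : ℕ → ℕ) (x y : Fun (RO P) ℕ β) (n : ℕ) (b : β) : Set P :=
  {p | (p ∈ U n ∧ p ∈ x.v (ρ n) b) ∨ (p ∈ (U n)ᶜ ∧ p ∈ y.v n b)}

theorem condR_down {β : Type} {U : ℕ → RO P} {ρ : ℕ → ℕ} {x y : Fun (RO P) ℕ β} (n : ℕ) (b : β)
    (p q : P) (hq : q ≤ p) (h : p ∈ condR U ρ x y n b) : q ∈ condR U ρ x y n b :=
  h.imp (fun h => ⟨RO.mem_down h.1 hq, RO.mem_down h.2 hq⟩)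
      (fun h => ⟨RO.mem_down h.1 hq, RO.mem_down h.2 hq⟩)

/-- the name of the function which is `x (ρ n)` if `U n` holds and `y n` otherwise -/
def cond {β : Type} (U : ℕ → RO P) (ρ : ℕ → ℕ) (x y : Fun (RO P) ℕ β) : Fun (RO P) ℕ β :=
  Fun.mk' (condR U ρ x y) condR_down
    (fun n b b' p h h' => by
      rcases h with h | h
      · rcases h' with h' | h'
        · exact Fun.uniq h.2 h'.2
        · exact absurd h.1 (h'.1 p le_rfl)
      · rcases h' with h' | h'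
        · exact absurd h'.1 (h.1 p le_rfl)
        · exact Fun.uniq h.2 h'.2)
    (fun n p => by
      by_cases hc : p ∈ (U n)ᶜ
      · obtain ⟨q, hq, b, hb⟩ := y.decide n p
        exact ⟨q, hq, b, Or.inr ⟨RO.mem_down hc hq, hb⟩⟩
      · rw [RO.mem_compl] at hc
        push Not at hc
        obtain ⟨q, hq, hU⟩ := hc
        obtain ⟨q', hq', b, hb⟩ := x.decide (ρ n) q
        exact ⟨q', hq'.trans hq, b, Or.inl ⟨RO.mem_down hU hq', hb⟩⟩)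

theorem mem_cond {β : Type} {U : ℕ → RO P} {ρ : ℕ → ℕ} {x y : Fun (RO P) ℕ β} {n : ℕ} {b : β}
    {p : P} : p ∈ (cond U ρ x y).v n b ↔ ∀ q ≤ p, ∃ r ≤ q, (r ∈ U n ∧ r ∈ x.v (ρ n) b) ∨
      (r ∈ (U n)ᶜ ∧ r ∈ y.v n b) :=
  mem_gen_down (condR_down n b)

theorem mem_cond_in {β : Type} {U : ℕ → RO P} {ρ : ℕ → ℕ} {x y : Fun (RO P) ℕ β} {n : ℕ} {b : β}
    {p : P} (h1 : p ∈ U n) (h2 : p ∈ x.v (ρ n) b) : p ∈ (cond U ρ x y).v n b :=
  mem_gen_of (condR_down n b) (Or.inl ⟨h1, h2⟩)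

theorem mem_cond_out {β : Type} {U : ℕ → RO P} {ρ : ℕ → ℕ} {x y : Fun (RO P) ℕ β} {n : ℕ} {b : β}
    {p : P} (h1 : p ∈ (U n)ᶜ) (h2 : p ∈ y.v n b) : p ∈ (cond U ρ x y).v n b :=
  mem_gen_of (condR_down n b) (Or.inr ⟨h1, h2⟩)

/-- the conditions which force that `alg` has the value `b` -/
def algR {β : Type} (r : Fun (RO P) ℕ ℕ) (x : Fun (RO P) ℕ β) (m : ℕ) (b : β) : Set P :=
  {p | ∃ t : List ℕ, t.length = m ∧ p ∈ ini t r ∧ p ∈ x.v (cd t) b}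

theorem algR_down {β : Type} {r : Fun (RO P) ℕ ℕ} {x : Fun (RO P) ℕ β} (m : ℕ) (b : β)
    (p q : P) (hq : q ≤ p) (h : p ∈ algR r x m b) : q ∈ algR r x m b := by
  obtain ⟨t, ht, h1, h2⟩ := h
  exact ⟨t, ht, RO.mem_down h1 hq, RO.mem_down h2 hq⟩

/-- the name of the function `m ↦ x (code of r|m)` -/
def alg {β : Type} (r : Fun (RO P) ℕ ℕ) (x : Fun (RO P) ℕ β) : Fun (RO P) ℕ β :=
  Fun.mk' (algR r x) algR_down
    (fun m b b' p ⟨t, ht, h1, h2⟩ ⟨t', ht', h1', h2'⟩ => by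
      have e := ini_uniq h1 h1' (ht.trans ht'.symm)
      subst e
      exact Fun.uniq h2 h2')
    (fun m p => by
      obtain ⟨q, hq, t, ht, hqt⟩ := ini_decide r m p
      obtain ⟨q', hq', b, hb⟩ := x.decide (cd t) q
      exact ⟨q', hq'.trans hq, b, t, ht, RO.mem_down hqt hq', hb⟩)

theorem mem_alg {β : Type} {r : Fun (RO P) ℕ ℕ} {x : Fun (RO P) ℕ β} {m : ℕ} {b : β} {p : P} :
    p ∈ (alg r x).v m b ↔ ∀ q ≤ p, ∃ q' ≤ q, ∃ t : List ℕ, t.length = m ∧ q' ∈ ini t r ∧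
      q' ∈ x.v (cd t) b :=
  mem_gen_down (algR_down m b)

theorem mem_alg_of {β : Type} {r : Fun (RO P) ℕ ℕ} {x : Fun (RO P) ℕ β} {m : ℕ} {b : β} {p : P}
    {t : List ℕ} (ht : t.length = m) (h1 : p ∈ ini t r) (h2 : p ∈ x.v (cd t) b) :
    p ∈ (alg r x).v m b :=
  mem_gen_of (algR_down m b) ⟨t, ht, h1, h2⟩

/-- the set of the numbers `m` for which the code of `r|m` is in `A` -/
def rest (r : Fun (RO P) ℕ ℕ) (A : ℕ → RO P) (m : ℕ) : RO P :=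
  ⨆ t : List ℕ, ⨆ (_ : t.length = m), ini t r ⊓ A (cd t)

theorem mem_rest {r : Fun (RO P) ℕ ℕ} {A : ℕ → RO P} {m : ℕ} {p : P} :
    p ∈ rest r A m ↔ ∀ q ≤ p, ∃ q' ≤ q, ∃ t : List ℕ, t.length = m ∧ q' ∈ ini t r ∧
      q' ∈ A (cd t) := by
  unfold rest
  rw [RO.mem_iSup]
  constructor
  · intro h q hq
    obtain ⟨q', hq', t, ht⟩ := h q hq
    obtain ⟨q'', hq'', ht2, h3⟩ := RO.mem_iSup.1 ht q' le_rfl
    exact ⟨q'', hq''.trans hq', t, ht2, h3.1, h3.2⟩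
  · intro h q hq
    obtain ⟨q', hq', t, ht, h1, h2⟩ := h q hq
    exact ⟨q', hq', t, RO.mem_iSup.2 fun s hs => ⟨s, le_rfl, ht, RO.mem_down h1 hs,
      RO.mem_down h2 hs⟩⟩

theorem mem_inn {x : Fun (RO P) ℕ ℕ} {s : Fun (RO P) ℕ (Finset ℕ)} {n : ℕ} {p : P} :
    p ∈ inn x s n ↔ ∀ q ≤ p, ∃ q' ≤ q, ∃ a S, a ∈ S ∧ q' ∈ x.v n a ∧ q' ∈ s.v n S := by
  unfold inn
  rw [RO.mem_iSup]
  constructor
  · intro h q hq
    obtain ⟨q1, hq1, a, h1⟩ := h q hq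
    obtain ⟨q2, hq2, S, h2⟩ := RO.mem_iSup.1 h1 q1 le_rfl
    obtain ⟨q3, hq3, ha, h3⟩ := RO.mem_iSup.1 h2 q2 le_rfl
    exact ⟨q3, hq3.trans (hq2.trans hq1), a, S, ha, h3.1, h3.2⟩
  · intro h q hq
    obtain ⟨q', hq', a, S, ha, h1, h2⟩ := h q hq
    refine ⟨q', hq', a, RO.mem_iSup.2 fun s hs => ⟨s, le_rfl, S, RO.mem_iSup.2 fun w hw =>
      ⟨w, le_rfl, ha, RO.mem_down h1 (hw.trans hs), RO.mem_down h2 (hw.trans hs)⟩⟩⟩

/-! ### The ideal and the functions -/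

variable {Λ : Type}

/-- the glued ideal -/
def glue (r : Λ → Fun (RO P) ℕ ℕ) (J : Λ → (ℕ → RO P) → RO P) (A : ℕ → RO P) : RO P :=
  ⨅ l, J l (rest (r l) A)

/-- the function of the branch `r`: the code of `r|m` goes to `m`, other numbers go to `0` -/
def hl (r : Fun (RO P) ℕ ℕ) : Fun (RO P) ℕ ℕ :=
  cond (fun n => ini (tl n) r) (fun n => n) (gr fun n => (tl n).length) (gr fun _ => 0)

/-- the slalom `s` moved to the branch `r` -/
def tr {β : Type} (b₀ : β) (r : Fun (RO P) ℕ ℕ) (s : Fun (RO P) ℕ β) : Fun (RO P) ℕ β :=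
  cond (fun n => ini (tl n) r) (fun n => (tl n).length) s (gr fun _ => b₀)

section ideal

variable {J : (ℕ → RO P) → RO P}

theorem ideal_proper (hJ : isIdeal J = ⊤) : J ⊤ = ⊥ := by
  have h : isIdeal J ≤ (J ⊤)ᶜ := by
    unfold isIdeal
    exact inf_le_left.trans (inf_le_left.trans inf_le_left)
  rw [hJ, top_le_iff] at h
  exact compl_eq_top.1 h

theorem ideal_fin (hJ : isIdeal J = ⊤) (A : ℕ → RO P) :
    (⨆ N : ℕ, ⨅ n, ⨅ (_ : N ≤ n), (A n)ᶜ) ≤ J A := by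
  have h : isIdeal J ≤ (⨆ N : ℕ, ⨅ n, ⨅ (_ : N ≤ n), (A n)ᶜ) ⇨ J A := by
    unfold isIdeal
    exact inf_le_left.trans (inf_le_left.trans (inf_le_right.trans (iInf_le _ A)))
  rw [hJ, top_le_iff, himp_eq_top_iff] at h
  exact h

theorem ideal_mono (hJ : isIdeal J = ⊤) (A A' : ℕ → RO P) :
    (⨅ n, A n ⇨ A' n) ⊓ J A' ≤ J A := by
  have h : isIdeal J ≤ ((⨅ n, A n ⇨ A' n) ⊓ J A') ⇨ J A := by
    unfold isIdeal
    exact inf_le_left.trans (inf_le_right.trans ((iInf_le _ A).trans (iInf_le _ A')))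
  rw [hJ, top_le_iff, himp_eq_top_iff] at h
  exact h

theorem ideal_mono' (hJ : isIdeal J = ⊤) {A A' : ℕ → RO P} (h : ∀ n, A n ≤ A' n) :
    J A' ≤ J A := by
  have h1 : (⨅ n, A n ⇨ A' n) = ⊤ := by
    rw [eq_top_iff]
    exact le_iInf fun n => by rw [top_le_iff, himp_eq_top_iff]; exact h n
  have h2 := ideal_mono hJ A A'
  rwa [h1, top_inf_eq] at h2

theorem ideal_union (hJ : isIdeal J = ⊤) (A A' : ℕ → RO P) :
    J A ⊓ J A' ≤ J (A ⊔ A') := by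
  have h : isIdeal J ≤ (J A ⊓ J A') ⇨ J (A ⊔ A') := by
    unfold isIdeal
    exact inf_le_right.trans ((iInf_le _ A).trans (iInf_le _ A'))
  rw [hJ, top_le_iff, himp_eq_top_iff] at h
  exact h

theorem isIdeal_of {J : (ℕ → RO P) → RO P} (h1 : J ⊤ = ⊥)
    (h2 : ∀ A : ℕ → RO P, (⨆ N : ℕ, ⨅ n, ⨅ (_ : N ≤ n), (A n)ᶜ) ≤ J A)
    (h3 : ∀ A A' : ℕ → RO P, (⨅ n, A n ⇨ A' n) ⊓ J A' ≤ J A)
    (h4 : ∀ A A' : ℕ → RO P, J A ⊓ J A' ≤ J (A ⊔ A')) : isIdeal J = ⊤ := by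
  unfold isIdeal
  rw [h1, compl_bot, top_inf_eq, eq_top_iff]
  refine le_inf (le_inf ?_ ?_) ?_
  · exact le_iInf fun A => by
      rw [le_himp_iff, top_inf_eq]
      exact h2 A
  · exact le_iInf fun A => le_iInf fun A' => by
      rw [le_himp_iff, top_inf_eq]
      exact h3 A A'
  · exact le_iInf fun A => le_iInf fun A' => by
      rw [le_himp_iff, top_inf_eq]
      exact h4 A A'

end ideal

theorem rest_top (r : Fun (RO P) ℕ ℕ) : rest r ⊤ = ⊤ := by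
  funext m
  rw [Pi.top_apply, RO.eq_top_iff']
  intro p
  rw [mem_rest]
  intro q _
  obtain ⟨q', hq', t, ht, h⟩ := ini_decide r m q
  exact ⟨q', hq', t, ht, h, RO.mem_top _⟩

theorem rest_mono (r : Fun (RO P) ℕ ℕ) (A A' : ℕ → RO P) :
    (⨅ n, A n ⇨ A' n) ≤ ⨅ m, rest r A m ⇨ rest r A' m := by
  intro p hp
  rw [RO.mem_iInf] at hp ⊢
  intro m
  rw [RO.mem_himp]
  intro q hq hA
  rw [mem_rest] at hA ⊢
  intro q' hq'
  obtain ⟨w, hw, t, ht, h1, h2⟩ := hA q' hq'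
  exact ⟨w, hw, t, ht, h1, RO.mem_himp.1 (hp (cd t)) w (hw.trans (hq'.trans hq)) h2⟩

theorem rest_sup (r : Fun (RO P) ℕ ℕ) (A A' : ℕ → RO P) :
    rest r (A ⊔ A') = rest r A ⊔ rest r A' := by
  funext m
  unfold rest
  simp only [Pi.sup_apply, inf_sup_left, iSup_sup_eq]

theorem rest_fin (r : Fun (RO P) ℕ ℕ) (A : ℕ → RO P) :
    (⨆ N : ℕ, ⨅ n, ⨅ (_ : N ≤ n), (A n)ᶜ) ≤ ⨆ N : ℕ, ⨅ n, ⨅ (_ : N ≤ n), (rest r A n)ᶜ := by
  refine iSup_le fun N => ?_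
  obtain ⟨M, hM⟩ : ∃ M, ∀ n < N, (tl n).length < M := by
    refine ⟨(Finset.range N).sup (fun n => (tl n).length) + 1, fun n hn => ?_⟩
    have := Finset.le_sup (f := fun n => (tl n).length) (Finset.mem_range.2 hn)
    exact Nat.lt_succ_of_le this
  refine le_iSup_of_le M ?_
  intro p hp
  rw [RO.mem_iInf]
  intro m
  rw [RO.mem_iInf]
  intro hm
  rw [RO.mem_compl]
  intro q hq hr
  obtain ⟨w, hw, t, ht, h1, h2⟩ := mem_rest.1 hr q le_rfl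
  have h3 : N ≤ cd t := by
    by_contra hcon
    have := hM (cd t) (not_le.1 hcon)
    rw [tl_cd, ht] at this
    omega
  have h4 := RO.mem_iInf.1 (RO.mem_iInf.1 hp (cd t)) h3
  exact RO.mem_compl.1 h4 w (hw.trans hq) h2

theorem isIdeal_glue [Nonempty Λ] {r : Λ → Fun (RO P) ℕ ℕ} {J : Λ → (ℕ → RO P) → RO P}
    (hJ : ∀ l, isIdeal (J l) = ⊤) : isIdeal (glue r J) = ⊤ := by
  obtain ⟨l₀⟩ := (inferInstance : Nonempty Λ)
  refine isIdeal_of ?_ ?_ ?_ ?_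
  · rw [eq_bot_iff]
    refine (iInf_le _ l₀).trans ?_
    rw [rest_top, ideal_proper (hJ l₀)]
  · exact fun A => le_iInf fun l => (rest_fin (r l) A).trans (ideal_fin (hJ l) _)
  · intro A A'
    refine le_iInf fun l => ?_
    exact (inf_le_inf (rest_mono (r l) A A') (iInf_le _ l)).trans (ideal_mono (hJ l) _ _)
  · intro A A'
    refine le_iInf fun l => ?_
    rw [rest_sup]
    exact (inf_le_inf (iInf_le _ l) (iInf_le _ l)).trans (ideal_union (hJ l) _ _)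

/-! ### The upper bound -/

theorem mem_hl_in {r : Fun (RO P) ℕ ℕ} {n : ℕ} {p : P} (h : p ∈ ini (tl n) r) :
    p ∈ (hl r).v n (tl n).length :=
  mem_cond_in h (mem_gr _ n p)

theorem mem_hl_out {r : Fun (RO P) ℕ ℕ} {n : ℕ} {p : P} (h : p ∈ (ini (tl n) r)ᶜ) :
    p ∈ (hl r).v n 0 :=
  mem_cond_out h (mem_gr (fun _ => 0) n p)

theorem mem_tr_in {β : Type} {b₀ b : β} {r : Fun (RO P) ℕ ℕ} {s : Fun (RO P) ℕ β} {n : ℕ} {p : P}
    (h : p ∈ ini (tl n) r) (hs : p ∈ s.v (tl n).length b) : p ∈ (tr b₀ r s).v n b :=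
  mem_cond_in h hs

theorem mem_tr_out {β : Type} {b₀ : β} {r : Fun (RO P) ℕ ℕ} {s : Fun (RO P) ℕ β} {n : ℕ} {p : P}
    (h : p ∈ (ini (tl n) r)ᶜ) : p ∈ (tr b₀ r s).v n b₀ :=
  mem_cond_out h (mem_gr (fun _ => b₀) n p)

theorem slalomOf_tr (r : Fun (RO P) ℕ ℕ) {s : Fun (RO P) ℕ (Finset ℕ)}
    (hs : isSlalom (fun n => n) s = ⊤) : slalomOf (hl r) (tr ∅ r s) = ⊤ := by
  rw [RO.eq_top_iff']
  intro p
  unfold slalomOf
  rw [RO.mem_iInf]
  intro n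
  refine RO.mem_iSup.2 fun q _ => ?_
  by_cases hc : q ∈ (ini (tl n) r)ᶜ
  · refine ⟨q, le_rfl, 0, RO.mem_iSup.2 fun w hw => ⟨w, le_rfl, ∅, RO.mem_iSup.2 fun w' hw' =>
      ⟨w', le_rfl, by simp, ?_⟩⟩⟩
    have h := RO.mem_down hc (hw'.trans hw)
    exact ⟨mem_hl_out h, mem_tr_out h⟩
  · rw [RO.mem_compl] at hc
    push Not at hc
    obtain ⟨q1, hq1, h1⟩ := hc
    have h2 : q1 ∈ isSlalom (fun n => n) s := by rw [hs]; exact RO.mem_top _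
    unfold isSlalom at h2
    obtain ⟨q2, hq2, S, h3⟩ := RO.mem_iSup.1 (RO.mem_iInf.1 h2 (tl n).length) q1 le_rfl
    obtain ⟨q3, hq3, h4, h5⟩ := RO.mem_iSup.1 h3 q2 le_rfl
    refine ⟨q3, hq3.trans (hq2.trans hq1), (tl n).length, RO.mem_iSup.2 fun w hw =>
      ⟨w, le_rfl, S, RO.mem_iSup.2 fun w' hw' => ⟨w', le_rfl, h4, ?_⟩⟩⟩
    have h6 : w' ∈ ini (tl n) r := RO.mem_down h1 (hw'.trans (hw.trans (hq3.trans hq2)))
    exact ⟨mem_hl_in h6, mem_tr_in h6 (RO.mem_down h5 (hw'.trans hw))⟩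

theorem inn_alg_le (r x : Fun (RO P) ℕ ℕ) (s : Fun (RO P) ℕ (Finset ℕ)) (m : ℕ) :
    inn (alg r x) s m ≤ rest r (inn x (tr ∅ r s)) m := by
  intro p hp
  rw [mem_rest]
  intro q hq
  obtain ⟨q1, hq1, a, S, haS, h1, h2⟩ := mem_inn.1 hp q hq
  obtain ⟨q2, hq2, t, ht, h3, h4⟩ := mem_alg.1 h1 q1 le_rfl
  refine ⟨q2, hq2.trans hq1, t, ht, h3, mem_inn.2 fun w hw => ⟨w, le_rfl, a, S, haS,
    RO.mem_down h4 hw, mem_tr_in ?_ ?_⟩⟩
  · rw [tl_cd]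
    exact RO.mem_down h3 hw
  · rw [tl_cd, ht]
    exact RO.mem_down h2 (hw.trans hq2)

theorem glue_upper {r : Λ → Fun (RO P) ℕ ℕ} {J : Λ → (ℕ → RO P) → RO P}
    (hJ : ∀ l, isIdeal (J l) = ⊤) {l : Λ} {K : Type} {s : K → Fun (RO P) ℕ (Finset ℕ)}
    (hs : ∀ x, ⨆ a, (J l (inn x (s a)))ᶜ = ⊤) (x : Fun (RO P) ℕ ℕ) :
    ⨆ a, (glue r J (inn x (tr ∅ (r l) (s a))))ᶜ = ⊤ := by
  rw [eq_top_iff, ← hs (alg (r l) x)]
  refine iSup_mono fun a => ?_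
  rw [compl_le_compl_iff_le]
  exact (iInf_le _ l).trans (ideal_mono' (hJ l) (inn_alg_le (r l) x (s a)))

/-! ### The lower bound -/

theorem rest_inn_le (r x : Fun (RO P) ℕ ℕ) (s : Fun (RO P) ℕ (Finset ℕ)) (m : ℕ) :
    rest r (inn (tr 0 r x) s) m ≤ inn x (alg r s) m := by
  intro p hp
  rw [mem_inn]
  intro q hq
  obtain ⟨q1, hq1, t, ht, h1, h2⟩ := mem_rest.1 hp q hq
  obtain ⟨q2, hq2, a, S, haS, h3, h4⟩ := mem_inn.1 h2 q1 le_rfl
  obtain ⟨q3, hq3, h5⟩ := mem_cond.1 h3 q2 le_rfl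
  refine ⟨q3, hq3.trans (hq2.trans hq1), a, S, haS, ?_, ?_⟩
  · rcases h5 with h5 | h5
    · have h6 : q3 ∈ x.v (tl (cd t)).length a := h5.2
      rw [tl_cd, ht] at h6
      exact h6
    · have h6 : q3 ∈ (ini (tl (cd t)) r)ᶜ := h5.1
      rw [tl_cd, RO.mem_compl] at h6
      exact absurd (RO.mem_down h1 (hq3.trans hq2)) (h6 q3 le_rfl)
  · exact mem_alg_of ht (RO.mem_down h1 (hq3.trans hq2)) (RO.mem_down h4 hq3)

theorem off_branch {r r' x : Fun (RO P) ℕ ℕ} (hr : eqv r r' = ⊥) {s : Fun (RO P) ℕ (Finset ℕ)} :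
    slalomOf (hl r) s ≤ ⨆ N : ℕ, ⨅ n, ⨅ (_ : N ≤ n), (rest r' (inn x s) n)ᶜ := by
  intro p hp
  refine RO.mem_iSup.2 fun q hq => ?_
  have h1 : q ∉ eqv r r' := by
    rw [hr]
    exact RO.notMem_bot q
  rw [mem_eqv] at h1
  push Not at h1
  obtain ⟨k, q1, hq1, a, a', h2, h3, h4⟩ := h1
  refine ⟨q1, hq1, k + 1, ?_⟩
  rw [RO.mem_iInf]
  intro m
  rw [RO.mem_iInf]
  intro hm
  rw [RO.mem_compl]
  intro w hw hrest
  obtain ⟨w1, hw1, t, ht, h5, h6⟩ := mem_rest.1 hrest w le_rfl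
  obtain ⟨w2, hw2, b, S, hbS, h7, h8⟩ := mem_inn.1 h6 w1 le_rfl
  have h9 : w2 ∈ (ini t r)ᶜ := by
    rw [RO.mem_compl]
    intro v hv h10
    have hk : k < t.length := by omega
    have e1 := mem_ini.1 h10 ⟨k, hk⟩
    have e2 := mem_ini.1 h5 ⟨k, hk⟩
    have hv1 : v ≤ q1 := hv.trans (hw2.trans (hw1.trans hw))
    have e3 : a = t[k] := Fun.uniq (RO.mem_down h2 hv1) e1
    have e4 : a' = t[k] := Fun.uniq (RO.mem_down h3 hv1) (RO.mem_down e2 (hv.trans hw2))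
    exact h4 (e3.trans e4.symm)
  have h10 : w2 ∈ slalomOf (hl r) s :=
    RO.mem_down hp (hw2.trans (hw1.trans (hw.trans (hq1.trans hq))))
  unfold slalomOf at h10
  obtain ⟨v1, hv1, j, h11⟩ := RO.mem_iSup.1 (RO.mem_iInf.1 h10 (cd t)) w2 le_rfl
  obtain ⟨v2, hv2, T, h12⟩ := RO.mem_iSup.1 h11 v1 le_rfl
  obtain ⟨v3, hv3, hT, h13⟩ := RO.mem_iSup.1 h12 v2 le_rfl
  have hv : v3 ≤ w2 := hv3.trans (hv2.trans hv1)
  have e1 : j = 0 := by
    refine Fun.uniq h13.1 (mem_hl_out ?_)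
    rw [tl_cd]
    exact RO.mem_down h9 hv
  have e2 : T = S := Fun.uniq h13.2 (RO.mem_down h8 hv)
  subst e1
  subst e2
  have e3 : T = ∅ := Finset.card_eq_zero.1 (Nat.le_zero.1 hT)
  rw [e3] at hbS
  simp at hbS

theorem glue_lower {r : Λ → Fun (RO P) ℕ ℕ} (hr : ∀ l l', l ≠ l' → eqv (r l) (r l') = ⊥)
    {J : Λ → (ℕ → RO P) → RO P} (hJ : ∀ l, isIdeal (J l) = ⊤) {l : Λ} {I : Type}
    (hI : ∀ s : I → Fun (RO P) ℕ (Finset ℕ), ⨆ x, ⨅ i, J l (inn x (s i)) = ⊤)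
    (s : I → Fun (RO P) ℕ (Finset ℕ)) :
    (⨅ i, slalomOf (hl (r l)) (s i)) ≤ ⨆ x, ⨅ i, glue r J (inn x (s i)) := by
  have h1 := hI fun i => alg (r l) (s i)
  have h2 : (⨅ i, slalomOf (hl (r l)) (s i)) ≤
      (⨅ i, slalomOf (hl (r l)) (s i)) ⊓ ⨆ x, ⨅ i, J l (inn x (alg (r l) (s i))) := by
    rw [h1, inf_top_eq]
  refine h2.trans ?_
  rw [inf_iSup_eq]
  refine iSup_le fun x => le_iSup_of_le (tr 0 (r l) x) (le_iInf fun i => le_iInf fun l' => ?_)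
  by_cases h : l' = l
  · subst h
    refine inf_le_right.trans ((iInf_le _ i).trans ?_)
    exact ideal_mono' (hJ l') (rest_inn_le (r l') x (s i))
  · refine inf_le_left.trans ((iInf_le _ i).trans ?_)
    exact (off_branch (hr l l' (Ne.symm h))).trans (ideal_fin (hJ l') _)

end RO

end CpB
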