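import Pool.Agent.CpB.Names

/-!
# MP_8b2a7f_lc: Boolean valued ideals on `ω` (helper7)
-/

set_option autoImplicit false

namespace CpB

open CofSN

section defs

variable {B : Type} [CompleteBooleanAlgebra B]

/-- The Boolean value of: `J` is a proper ideal on `ω` which contains all finite sets. A subset
`A` of `ω` is given by the Boolean values `A n` of `n ∈ A`, and `J A` is the value of `A ∈ J`. -/
def isIdeal (J : (ℕ → B) → B) : B :=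
  (J ⊤)ᶜ ⊓ (⨅ A : ℕ → B, (⨆ N : ℕ, ⨅ n, ⨅ (_ : N ≤ n), (A n)ᶜ) ⇨ J A) ⊓
    (⨅ A : ℕ → B, ⨅ A' : ℕ → B, ((⨅ n, A n ⇨ A' n) ⊓ J A') ⇨ J A) ⊓
    ⨅ A : ℕ → B, ⨅ A' : ℕ → B, (J A ⊓ J A') ⇨ J (A ⊔ A')

/-- The Boolean values of: `x(n) ∈ s(n)`. -/
def inn (x : Fun B ℕ ℕ) (s : Fun B ℕ (Finset ℕ)) (n : ℕ) : B :=
  ⨆ a, ⨆ S, ⨆ (_ : a ∈ S), x.v n a ⊓ s.v n S

/-- The Boolean value of: `s` is an `h`-slalom. -/
def isSlalom (h : ℕ → ℕ) (s : Fun B ℕ (Finset ℕ)) : B := ⨅ n, ⨆ S, ⨆ (_ : S.card ≤ h n), s.v n S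

/-- the ideal generated by a family of subsets (and the finite sets) -/
def idl {ι : Type} (G : ι → ℕ → B) (A : ℕ → B) : B :=
  ⨆ F : Finset ι, ⨆ N : ℕ, ⨅ n, ⨅ (_ : N ≤ n), (A n ⇨ ⨆ g ∈ F, G g n)

theorem idl_mono {ι : Type} (G : ι → ℕ → B) (A A' : ℕ → B) :
    (⨅ n, A n ⇨ A' n) ⊓ idl G A' ≤ idl G A := by
  unfold idl
  rw [inf_iSup_eq]
  refine iSup_le fun F => ?_
  rw [inf_iSup_eq]
  refine iSup_le fun N => ?_
  refine le_iSup_of_le F (le_iSup_of_le N ?_)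
  refine le_iInf fun n => le_iInf fun hn => ?_
  rw [le_himp_iff]
  have h1 : (⨅ n, A n ⇨ A' n) ≤ A n ⇨ A' n := iInf_le _ n
  have h2 : (⨅ n, ⨅ (_ : N ≤ n), (A' n ⇨ ⨆ g ∈ F, G g n)) ≤ A' n ⇨ ⨆ g ∈ F, G g n :=
    iInf_le_of_le n (iInf_le _ hn)
  calc (⨅ n, A n ⇨ A' n) ⊓ (⨅ n, ⨅ (_ : N ≤ n), (A' n ⇨ ⨆ g ∈ F, G g n)) ⊓ A n
      ≤ (A n ⇨ A' n) ⊓ (A' n ⇨ ⨆ g ∈ F, G g n) ⊓ A n := inf_le_inf_right _ (inf_le_inf h1 h2)
    _ ≤ ⨆ g ∈ F, G g n := by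
        rw [← le_himp_iff]
        exact himp_triangle _ _ _

theorem idl_union {ι : Type} (G : ι → ℕ → B) (A A' : ℕ → B) :
    idl G A ⊓ idl G A' ≤ idl G (A ⊔ A') := by
  classical
  unfold idl
  rw [iSup_inf_eq]
  refine iSup_le fun F => ?_
  rw [iSup_inf_eq]
  refine iSup_le fun N => ?_
  rw [inf_iSup_eq]
  refine iSup_le fun F' => ?_
  rw [inf_iSup_eq]
  refine iSup_le fun N' => ?_
  refine le_iSup_of_le (F ∪ F') (le_iSup_of_le (max N N') ?_)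
  refine le_iInf fun n => le_iInf fun hn => ?_
  have h1 : (⨅ n, ⨅ (_ : N ≤ n), (A n ⇨ ⨆ g ∈ F, G g n)) ≤ A n ⇨ ⨆ g ∈ F, G g n :=
    iInf_le_of_le n (iInf_le _ ((le_max_left _ _).trans hn))
  have h2 : (⨅ n, ⨅ (_ : N' ≤ n), (A' n ⇨ ⨆ g ∈ F', G g n)) ≤ A' n ⇨ ⨆ g ∈ F', G g n :=
    iInf_le_of_le n (iInf_le _ ((le_max_right _ _).trans hn))
  have h3 : (⨆ g ∈ F, G g n) ≤ ⨆ g ∈ F ∪ F', G g n :=
    biSup_mono fun g hg => Finset.mem_union_left _ hg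
  have h4 : (⨆ g ∈ F', G g n) ≤ ⨆ g ∈ F ∪ F', G g n :=
    biSup_mono fun g hg => Finset.mem_union_right _ hg
  rw [Pi.sup_apply, sup_himp_distrib]
  exact inf_le_inf (h1.trans (himp_le_himp_left h3)) (h2.trans (himp_le_himp_left h4))

theorem idl_fin {ι : Type} (G : ι → ℕ → B) (A : ℕ → B) :
    (⨆ N : ℕ, ⨅ n, ⨅ (_ : N ≤ n), (A n)ᶜ) ≤ idl G A := by
  refine iSup_le fun N => ?_
  unfold idl
  refine le_iSup_of_le ∅ (le_iSup_of_le N ?_)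
  refine le_iInf fun n => le_iInf fun hn => ?_
  refine (iInf_le_of_le n (iInf_le _ hn)).trans ?_
  rw [le_himp_iff, compl_inf_eq_bot]
  exact bot_le

theorem idl_gen {ι : Type} (G : ι → ℕ → B) (g : ι) : idl G (G g) = ⊤ := by
  rw [eq_top_iff]
  unfold idl
  refine le_iSup_of_le {g} (le_iSup_of_le 0 ?_)
  refine le_iInf fun n => le_iInf fun _ => ?_
  rw [le_himp_iff, top_inf_eq]
  simp

theorem isIdeal_idl {ι : Type} (G : ι → ℕ → B)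
    (hG : ∀ (F : Finset ι) (N : ℕ), (⨅ n, ⨅ (_ : N ≤ n), ⨆ g ∈ F, G g n) = ⊥) :
    isIdeal (idl G) = ⊤ := by
  have h1 : idl G ⊤ = ⊥ := by
    unfold idl
    simp only [Pi.top_apply, top_himp]
    rw [eq_bot_iff]
    exact iSup_le fun F => iSup_le fun N => (hG F N).le
  unfold isIdeal
  rw [h1, compl_bot, top_inf_eq, eq_top_iff]
  refine le_inf (le_inf ?_ ?_) ?_
  · exact le_iInf fun A => by
      rw [le_himp_iff, top_inf_eq]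
      exact idl_fin G A
  · exact le_iInf fun A => le_iInf fun A' => by
      rw [le_himp_iff, top_inf_eq]
      exact idl_mono G A A'
  · exact le_iInf fun A => le_iInf fun A' => by
      rw [le_himp_iff, top_inf_eq]
      exact idl_union G A A'

end defs

end CpB
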