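import Pool.Agent.CpB.NonMeagre
import Pool.Agent.CpUniv.Cof

/-!
# MP_32ee98_gt, consistency input: the theorem (helper7)
-/

set_option autoImplicit false

namespace CpB

open CofSN Cardinal Pool.Agent.CpUniv

/-- the initial ordinal of `ℵ₂`; it is `ω₁` in the Boolean valued universe below -/
abbrev Om : Type := (Cardinal.ord.{0} (ℵ_ 2)).ToType

theorem mk_Om : #Om = ℵ_ 2 := Cardinal.mk_ord_toType _

theorem aleph_two : (ℵ_ 2 : Cardinal.{0}) = Order.succ ℵ₁ := by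
  have h2 : Order.succ (ℵ_ 1 : Cardinal.{0}) = ℵ_ (1 + 1) := Cardinal.succ_aleph 1
  rw [h2]
  norm_num

theorem model (κ : Cardinal.{0}) : ∃ (B : Type) (_ : CompleteBooleanAlgebra B), (⊥ : B) ≠ ⊤ ∧
    ctblSegments B Om = ⊤ ∧ (∀ X Y : Type, #X < #Y → ℵ_ 2 ≤ #Y → noSurj B X Y = ⊤) ∧
    (∃ L : Om → ℕ → Om, (∀ δ, StrictMono (L δ)) ∧ ∀ C : Om → B, club C ≤ ⨆ δ, ⨅ n, C (L δ n)) ∧
    (∃ x : Om → Fun B ℕ ℕ, ∀ D : ℕ → List ℕ → B,
      denseSeq D ≤ ⨆ ξ, ⨅ n, ⨆ t, D n t ⊓ ini t (x ξ)) ∧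
    ltContinuum B Om = ⊤ ∧
    ∀ K : Type, #K ≤ κ → ∃ (I : Type) (A : I → Set K), (∀ i, #(A i) ≤ #Om) ∧
      ltContinuum B I = ⊤ ∧
      ∀ f : Fun B Om K, ⨆ i, ⨅ t, ⨆ k, ⨆ (_ : k ∈ A i), f.v t k = ⊤ := by
  classical
  have h01 : ℵ₀ ≤ ℵ₁ := aleph0_lt_aleph_one.le
  have h12 : (ℵ₁ : Cardinal.{0}) < ℵ_ 2 := by
    have h : (ℵ_ 1 : Cardinal.{0}) < ℵ_ 2 := Cardinal.aleph_lt_aleph.2 (by norm_num)
    exact h
  let M : Type := (ℵ₁ : Cardinal.{0}).out
  have hM : #M = ℵ₁ := Cardinal.mk_out _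
  have hMn : Nonempty M := by
    rw [← Cardinal.mk_ne_zero_iff, hM]
    exact (Cardinal.aleph0_pos.trans_le h01).ne'
  obtain ⟨ρ, hρ⟩ : ∃ ρ : M → ℕ, Function.Surjective ρ := by
    have h : #ℕ ≤ #M := by rw [hM, Cardinal.mk_nat]; exact h01
    obtain ⟨j⟩ := h
    exact ⟨Function.invFun j, Function.invFun_surjective j.injective⟩
  let K0 : Type := κ.out ⊕ ℕ
  have hK0 : κ ≤ #K0 := by
    rw [Cardinal.mk_sum, Cardinal.lift_id, Cardinal.lift_id, Cardinal.mk_out]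
    exact self_le_add_right _ _
  let Θ : Type := Set (Om → K0)
  have hΘ : #(Om → K0) < #Θ := by
    rw [Cardinal.mk_set]
    exact Cardinal.cantor _
  have hOm : #Om ≤ #(Om → K0) := by
    have h2 : (2 : Cardinal.{0}) ≤ #K0 := by
      have h3 : #ℕ ≤ #K0 := ⟨⟨Sum.inr, Sum.inr_injective⟩⟩
      refine le_trans ?_ h3
      rw [Cardinal.mk_nat]
      exact Cardinal.ofNat_le_aleph0
    rw [← Cardinal.power_def]
    exact (Cardinal.cantor _).le.trans (Cardinal.power_le_power_right h2)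
  have hμν : ℵ₁ ≤ #(Om → K0) := by
    refine le_trans ?_ hOm
    rw [mk_Om]
    exact h12.le
  have hne : Nonempty Om := by
    rw [← Cardinal.mk_ne_zero_iff, mk_Om]
    exact (Cardinal.aleph0_pos.trans_le (h01.trans h12.le)).ne'
  have hreg : (ℵ_ 2 : Cardinal.{0}).IsRegular := by
    rw [aleph_two]
    exact Cardinal.isRegular_succ h01
  have hno : NoMaxOrder Om := Cardinal.noMaxOrder (h01.trans h12.le)
  have hcofOm : Order.cof Om = ℵ_ 2 := by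
    rw [Ordinal.cof_toType]
    exact hreg.cof_ord
  have hIio : ∀ a : Om, #(Set.Iio a) < ℵ_ 2 := fun a => Cardinal.mk_Iio_toType_ord_lt a
  obtain ⟨L, hL1, hL2⟩ := exists_guess (Θ := Om)
    (by rw [hcofOm]; exact aleph0_lt_aleph_one.trans h12) (by rw [hcofOm]; exact hIio)
    (club_guessing (by rw [hcofOm]; exact h12))
  obtain ⟨e⟩ : Nonempty (Om ↪ Θ) := by
    have h : #Om ≤ #Θ := hOm.trans hΘ.le
    exact h
  have hΘn : Nonempty Θ := ⟨∅⟩
  refine ⟨RO (Po Θ M), inferInstance, nontriv, ctblSegments_eq_top ?_, ?_, ⟨L, hL1, ?_⟩,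
    ⟨fun ξ => gn (e ξ) ρ, ?_⟩, ?_, ?_⟩
  · intro t
    rw [hM]
    exact Order.lt_succ_iff.1 ((hIio t).trans_eq aleph_two)
  · intro X Y hXY hY
    exact noSurj_eq_top h01 hM.le hXY (h12.trans_le hY)
  · exact club_le h01 hM.le (by rw [hcofOm]; exact h12) hL2
  · exact nonmeagre h01 hM.le hρ (by rw [mk_Om]; exact h12) e.injective
  · exact ltContinuum_eq_top h01 hM.le hρ hμν hΘ hOm
  · intro K hK
    refine ⟨Om → K, fun a => Set.range a, fun a => Cardinal.mk_range_le, ?_, ?_⟩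
    · refine ltContinuum_eq_top h01 hM.le hρ hμν hΘ ?_
      rw [← Cardinal.power_def, ← Cardinal.power_def]
      exact Cardinal.power_le_power_right (hK.trans hK0)
    · intro f
      exact cover_eq_top h01 hM.le (by rw [mk_Om]; exact h12.le) f

end CpB
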