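import Pool.Agent.CpB.Names
import Pool.Agent.CpUniv.Main

/-!
# MP_32ee98_gt, consistency input: properties of the generic extension (helper7)
-/

set_option autoImplicit false

namespace CpB

open CofSN Cardinal

section

variable {Θ M : Type} {μ : Cardinal.{0}}

theorem nontriv [Nonempty M] : (⊥ : RO (Po Θ M)) ≠ ⊤ := by
  intro h
  have h1 : (Fc.emp : Po Θ M) ∈ (⊤ : RO (Po Θ M)) := RO.mem_top _
  rw [← h] at h1
  exact RO.notMem_bot _ h1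

/-- cardinals above `μ` are preserved -/
theorem noSurj_eq_top (h0 : ℵ₀ ≤ μ) (hM : #M ≤ μ) {X Y : Type} (hXY : #X < #Y) (hY : μ < #Y) :
    noSurj (RO (Po Θ M)) X Y = ⊤ := by
  rw [RO.eq_top_iff']
  intro p
  unfold noSurj
  rw [RO.mem_iInf]
  intro f
  have h1 : #(⋃ x, {y | f.v x y ≠ ⊥} : Set Y) < #Y := by
    calc #(⋃ x, {y | f.v x y ≠ ⊥} : Set Y) ≤ Cardinal.sum (fun x => #({y | f.v x y ≠ ⊥} : Set Y)) :=
          Cardinal.mk_iUnion_le_sum_mk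
      _ ≤ Cardinal.sum (fun _ : X => μ) :=
          Cardinal.sum_le_sum _ _ fun x => Fc.card_ne_bot h0 hM _ (f.disj x)
      _ = #X * μ := by rw [Cardinal.sum_const']
      _ < #Y := Cardinal.mul_lt_of_lt (h0.trans hY.le) hXY hY
  obtain ⟨y, hy⟩ : ∃ y, y ∉ (⋃ x, {y | f.v x y ≠ ⊥} : Set Y) := by
    by_contra hcon
    push Not at hcon
    rw [Set.eq_univ_of_forall hcon, Cardinal.mk_univ] at h1
    exact lt_irrefl _ h1
  refine RO.mem_iSup.2 fun q _ => ⟨q, le_rfl, y, ?_⟩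
  rw [RO.mem_iInf]
  intro x
  have h2 : f.v x y = ⊥ := by
    by_contra h
    exact hy (Set.mem_iUnion.2 ⟨x, h⟩)
  rw [h2, compl_bot]
  exact RO.mem_top q

/-- sets of size at most `#M` are countable -/
theorem ctblSegments_eq_top [Nonempty Θ] [Nonempty M] {T : Type} [LinearOrder T] [Nonempty T]
    (hT : ∀ t : T, #(Set.Iio t) ≤ #M) : ctblSegments (RO (Po Θ M)) T = ⊤ := by
  classical
  rw [RO.eq_top_iff']
  intro p
  unfold ctblSegments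
  rw [RO.mem_iInf]
  intro t
  obtain ⟨θ⟩ := (inferInstance : Nonempty Θ)
  obtain ⟨g, hg⟩ : ∃ g : M → T, ∀ s < t, ∃ m, g m = s := by
    obtain ⟨j⟩ := hT t
    by_cases hne : Nonempty (Set.Iio t)
    · exact ⟨fun m => (Function.invFun j m : Set.Iio t), fun s hs => ⟨j ⟨s, hs⟩,
        congrArg Subtype.val (Function.leftInverse_invFun j.injective ⟨s, hs⟩)⟩⟩
    · obtain ⟨t0⟩ := (inferInstance : Nonempty T)
      exact ⟨fun _ => t0, fun s hs => absurd ⟨⟨s, hs⟩⟩ hne⟩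
  refine RO.mem_iSup.2 fun q _ => ⟨q, le_rfl, gn θ g, ?_⟩
  rw [RO.mem_iInf]
  intro s
  rw [RO.mem_iInf]
  intro hs
  refine RO.mem_iSup.2 fun r _ => ?_
  obtain ⟨N, hN⟩ := exists_free r θ
  obtain ⟨m, hm⟩ := hg s hs
  obtain ⟨r', hr', h⟩ := Fc.exists_one (hN N le_rfl) m
  exact ⟨r', hr', N, mem_gn h hm⟩

/-- a club of the extension contains a club of the ground model -/
theorem club_le (h0 : ℵ₀ ≤ μ) (hM : #M ≤ μ) {T : Type} [LinearOrder T] [WellFoundedLT T]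
    (hcof : μ < Order.cof T) {L : T → ℕ → T}
    (hL : ∀ f : T → T, ∃ δ, ∀ n, (∃ β, β < L δ n) ∧ ∀ β < L δ n, f β < L δ n)
    (C : T → RO (Po Θ M)) : club C ≤ ⨆ δ, ⨅ n, C (L δ n) := by
  classical
  -- the name of the next element
  let v : T → T → RO (Po Θ M) := fun a b =>
    if a < b then C b ⊓ ⨅ c, ⨅ (_ : a < c ∧ c < b), (C c)ᶜ else ⊥
  have hv : ∀ a b b', b ≠ b' → v a b ⊓ v a b' = ⊥ := by
    intro a b b' hb
    refine le_antisymm (fun p hp => ?_) bot_le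
    obtain ⟨h1, h2⟩ := hp
    simp only [v] at h1 h2
    split_ifs at h1 with ha1
    · split_ifs at h2 with ha2
      · rcases lt_or_gt_of_ne hb with h | h
        · have h3 := RO.mem_iInf.1 (RO.mem_iInf.1 h2.2 b) ⟨ha1, h⟩
          exact absurd h1.1 (RO.mem_compl.1 h3 p le_rfl)
        · have h3 := RO.mem_iInf.1 (RO.mem_iInf.1 h1.2 b') ⟨ha2, h⟩
          exact absurd h2.1 (RO.mem_compl.1 h3 p le_rfl)
      · exact absurd h2 (RO.notMem_bot p)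
    · exact absurd h1 (RO.notMem_bot p)
  have hF : ∀ a, ∃ t, ∀ b, v a b ≠ ⊥ → b < t := by
    intro a
    have h1 : #({b | v a b ≠ ⊥} : Set T) < Order.cof T :=
      (Fc.card_ne_bot h0 hM _ (hv a)).trans_lt hcof
    have h2 : ¬ IsCofinal ({b | v a b ≠ ⊥} : Set T) := fun h => (Order.cof_le h).not_gt h1
    rw [IsCofinal] at h2
    push Not at h2
    obtain ⟨t, ht⟩ := h2
    exact ⟨t, fun b hb => ht b hb⟩
  choose F hF using hF
  obtain ⟨δ, hδ⟩ := hL F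
  intro p hp
  refine RO.mem_iSup.2 fun q hq => ⟨q, le_rfl, δ, ?_⟩
  have hq1 := RO.mem_down hp hq
  obtain ⟨hu, hc⟩ := hq1
  rw [RO.mem_iInf]
  intro n
  obtain ⟨⟨β, hβ⟩, hcl⟩ := hδ n
  have h1 := RO.mem_iInf.1 (RO.mem_iInf.1 hc (L δ n)) (not_isMin_iff.2 ⟨β, hβ⟩)
  refine RO.mem_himp.1 h1 q le_rfl ?_
  rw [RO.mem_iInf]
  intro a
  rw [RO.mem_iInf]
  intro ha
  refine RO.mem_iSup.2 fun r hr => ?_
  -- the least possible value above `a`
  have hex : ∃ b, a < b ∧ ∃ s ≤ r, s ∈ C b := by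
    obtain ⟨s, hs, b, hb⟩ := RO.mem_iSup.1 (RO.mem_iInf.1 hu a) r hr
    obtain ⟨s', hs', hab, hC⟩ := RO.mem_iSup.1 hb s le_rfl
    exact ⟨b, hab, s', hs'.trans hs, hC⟩
  obtain ⟨b, ⟨hab, s, hs, hsC⟩, hmin⟩ := WellFounded.has_min wellFounded_lt
    {b | a < b ∧ ∃ s ≤ r, s ∈ C b} hex
  have h2 : s ∈ v a b := by
    simp only [v, if_pos hab]
    refine ⟨hsC, ?_⟩
    rw [RO.mem_iInf]
    intro c
    rw [RO.mem_iInf]
    intro hc
    rw [RO.mem_compl]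
    intro s' hs' hcon
    exact hmin c ⟨hc.1, s', hs'.trans hs, hcon⟩ hc.2
  have h3 : b < F a := hF a b fun h => by
    rw [h] at h2
    exact RO.notMem_bot _ h2
  exact ⟨s, hs, b, RO.mem_iSup.2 fun s' hs' => ⟨s', le_rfl, ⟨hab, h3.trans (hcl a ha)⟩,
    RO.mem_down hsC hs'⟩⟩

/-- conditions can be merged -/
theorem merge {S : Set Θ} {θ : Θ} (hθ : θ ∉ S) {q r w : Po Θ M} (hr : r ≤ q)
    (hw : ∀ x k, w.f x = some k → x.1 = θ ∧ q.f x = none) :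
    ∃ u, u ≤ Fc.res (S ×ˢ Set.univ) r ∧ u ≤ q ∧ u ≤ w := by
  refine ⟨Fc.ov (Fc.ov (Fc.res (S ×ˢ Set.univ) r) q) w,
    (Fc.ov_le_left _ _).trans (Fc.ov_le_left _ _),
    (Fc.ov_le_left _ _).trans (Fc.ov_le_right ?_), Fc.ov_le_right ?_⟩
  · intro x k l hk hl
    have h1 := (Fc.res_some.1 hk).2
    rw [hr x l hl] at h1
    exact (Option.some.inj h1).symm
  · intro x k l hk hl
    obtain ⟨hx1, hx2⟩ := hw x l hl
    have h1 : (Fc.res (S ×ˢ Set.univ) r).f x = none := by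
      cases h : (Fc.res (S ×ˢ Set.univ) r).f x with
      | none => rfl
      | some m =>
        have h2 := (Fc.res_some.1 h).1
        rw [Set.mem_prod, hx1] at h2
        exact absurd h2.1 hθ
    simp [Fc.ov, h1, hx2] at hk

/-- many regular sets have a common support -/
theorem common_supp (h0 : ℵ₀ ≤ μ) (hM : #M ≤ μ) {ν : Cardinal.{0}} (hμν : μ ≤ ν) {I : Type}
    (hI : #I ≤ ν) (U : I → RO (Po Θ M)) :
    ∃ S : Set Θ, #S ≤ ν ∧ ∀ i, ∀ p ∈ U i, Fc.res (S ×ˢ Set.univ) p ∈ U i := by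
  have h1 := fun i => Fc.exists_supp h0 hM (U i)
  choose S hS1 hS2 using h1
  refine ⟨⋃ i, Prod.fst '' (S i), Fc.card_iUnion _ (h0.trans hμν) hI fun i =>
    (Cardinal.mk_image_le.trans (hS1 i)).trans hμν, fun i p hp => ?_⟩
  refine RO.mem_down (hS2 i p hp) (Fc.res_le_res ?_ p)
  intro x hx
  exact ⟨Set.mem_iUnion.2 ⟨i, x, hx, rfl⟩, trivial⟩

theorem exists_notMem {α : Type} {ν : Cardinal.{0}} (hν : ν < #α) {S : Set α} (hS : #S ≤ ν) :
    ∃ a, a ∉ S := by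
  by_contra hcon
  push Not at hcon
  rw [Set.eq_univ_of_forall hcon, Cardinal.mk_univ] at hS
  exact absurd (hν.trans_le hS) (lt_irrefl _)

/-- fewer than `#Θ` many sequences do not exhaust `ω^ω` -/
theorem ltContinuum_eq_top (h0 : ℵ₀ ≤ μ) (hM : #M ≤ μ) [Nonempty M] {ρ : M → ℕ}
    (hρ : Function.Surjective ρ) {ν : Cardinal.{0}} (hμν : μ ≤ ν) (hν : ν < #Θ) {I : Type}
    (hI : #I ≤ ν) : ltContinuum (RO (Po Θ M)) I = ⊤ := by
  rw [RO.eq_top_iff']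
  intro p
  unfold ltContinuum
  rw [RO.mem_iInf]
  intro x
  have hc : #(I × ℕ × ℕ) ≤ ν := by
    have h1 : ℵ₀ ≤ ν := h0.trans hμν
    rw [Cardinal.mk_prod, Cardinal.lift_id, Cardinal.lift_id]
    refine (mul_le_mul' hI ?_).trans (Cardinal.mul_eq_self h1).le
    exact (Cardinal.mk_le_aleph0 (α := ℕ × ℕ)).trans h1
  obtain ⟨S, hS1, hS2⟩ := common_supp h0 hM hμν hc (fun i => (x i.1).v i.2.1 i.2.2)
  obtain ⟨θ, hθ⟩ := exists_notMem hν hS1
  refine RO.mem_iSup.2 fun q _ => ⟨q, le_rfl, gn θ ρ, ?_⟩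
  rw [RO.mem_iInf]
  intro i
  rw [RO.mem_compl]
  intro q' _ hcon
  rw [mem_eqv] at hcon
  obtain ⟨N, hN⟩ := exists_free q' θ
  obtain ⟨r, hr, a, ha⟩ := (x i).decide N q'
  obtain ⟨m, hm⟩ := hρ (a + 1)
  obtain ⟨u, hu1, hu2, hu3⟩ := merge (w := Fc.one (θ, N) m) hθ hr (by
    intro y k hk
    obtain ⟨rfl, _⟩ := Fc.one_some.1 hk
    exact ⟨rfl, hN N le_rfl⟩)
  have h1 := hcon N u hu2 a (a + 1) (RO.mem_down (hS2 (i, N, a) r ha) hu1)
    (mem_gn (hu3 _ _ (Fc.one_some.2 ⟨rfl, rfl⟩)) hm)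
  omega

/-- covering of functions by functions of the ground model -/
theorem cover_eq_top (h0 : ℵ₀ ≤ μ) (hM : #M ≤ μ) [Nonempty M] {T : Type} [Nonempty T]
    (hT : μ ≤ #T) {K : Type} (f : Fun (RO (Po Θ M)) T K) :
    ⨆ a : T → K, ⨅ t, ⨆ k, ⨆ (_ : k ∈ Set.range a), f.v t k = ⊤ := by
  classical
  rw [RO.eq_top_iff']
  intro p
  have h1 : #(⋃ t, {k | f.v t k ≠ ⊥} : Set K) ≤ #T :=
    Fc.card_iUnion _ (h0.trans hT) le_rfl fun t =>
      (Fc.card_ne_bot h0 hM _ (f.disj t)).trans hT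
  have hmem : ∀ t k (q : Po Θ M), q ∈ f.v t k → k ∈ (⋃ t, {k | f.v t k ≠ ⊥} : Set K) := by
    intro t k q hq
    refine Set.mem_iUnion.2 ⟨t, fun h => ?_⟩
    rw [h] at hq
    exact RO.notMem_bot _ hq
  obtain ⟨t0⟩ := (inferInstance : Nonempty T)
  obtain ⟨q0, _, k0, hk0⟩ := f.decide t0 p
  obtain ⟨j⟩ := h1
  have hne : Nonempty (⋃ t, {k | f.v t k ≠ ⊥} : Set K) := ⟨⟨k0, hmem t0 k0 q0 hk0⟩⟩
  refine RO.mem_iSup.2 fun q _ => ⟨q, le_rfl,
    fun t => (Function.invFun j t : (⋃ t, {k | f.v t k ≠ ⊥} : Set K)), ?_⟩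
  rw [RO.mem_iInf]
  intro t
  refine RO.mem_iSup.2 fun r _ => ?_
  obtain ⟨s, hs, k, hk⟩ := f.decide t r
  refine ⟨s, hs, k, RO.mem_iSup.2 fun s' hs' => ⟨s', le_rfl, ?_, RO.mem_down hk hs'⟩⟩
  exact ⟨j ⟨k, hmem t k s hk⟩,
    congrArg Subtype.val (Function.leftInverse_invFun j.injective ⟨k, hmem t k s hk⟩)⟩

end

end CpB
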