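import Pool.Agent.CpB.Poset

/-!
# MP_32ee98_gt, consistency input: Boolean valued functions (helper7)
-/

set_option autoImplicit false

namespace CpB

open CofSN Cardinal

/-- A `B`-name of a function from `α` to `β`: `v a b` is the Boolean value of `f(a) = b`. -/
structure Fun (B : Type) [CompleteBooleanAlgebra B] (α β : Type) where
  v : α → β → B
  disj : ∀ a b b', b ≠ b' → v a b ⊓ v a b' = ⊥
  tot : ∀ a, ⨆ b, v a b = ⊤

section defs

variable (B : Type) [CompleteBooleanAlgebra B]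

/-- The Boolean value of: there is no map from `X` onto `Y`. -/
def noSurj (X Y : Type) : B := ⨅ f : Fun B X Y, ⨆ y, ⨅ x, (f.v x y)ᶜ

/-- The Boolean value of: every proper initial segment of the linear order `T` is countable (the
image of a function on `ℕ` contains it). -/
def ctblSegments (T : Type) [LinearOrder T] : B :=
  ⨅ t : T, ⨆ f : Fun B ℕ T, ⨅ s, ⨅ (_ : s < t), ⨆ n, f.v n s

variable {B}

/-- The Boolean value of: the functions `x` and `y` are equal. -/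
def eqv {α β : Type} (x y : Fun B α β) : B := ⨅ a, ⨆ b, x.v a b ⊓ y.v a b

variable (B) in
/-- The Boolean value of: there is no map from `I` onto `ω^ω`; that is, `|I| < 2^{ℵ₀}`. -/
def ltContinuum (I : Type) : B :=
  ⨅ x : I → Fun B ℕ ℕ, ⨆ y : Fun B ℕ ℕ, ⨅ i, (eqv (x i) y)ᶜ

/-- The Boolean value of: the subset `C` of the linear order `T` (given by the Boolean values of
`t ∈ C`) is closed and unbounded. -/
def club {T : Type} [LinearOrder T] (C : T → B) : B :=
  (⨅ a, ⨆ b, ⨆ (_ : a < b), C b) ⊓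
    ⨅ δ, ⨅ (_ : ¬ IsMin δ), ((⨅ a, ⨅ (_ : a < δ), ⨆ b, ⨆ (_ : a < b ∧ b < δ), C b) ⇨ C δ)

/-- The Boolean value of: for every `n` the union of the basic open sets `[s]`, `s ∈ D n`, is
dense in `ω^ω`. -/
def denseSeq (D : ℕ → List ℕ → B) : B := ⨅ n, ⨅ s, ⨆ t, ⨆ (_ : s <+: t), D n t

/-- The Boolean value of: `x` has the initial segment `t`. -/
def ini (t : List ℕ) (x : Fun B ℕ ℕ) : B := ⨅ i : Fin t.length, x.v i t[i]

end defs

section RO

variable {P : Type} [Preorder P]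

namespace Fun

theorem decide {α β : Type} (x : Fun (RO P) α β) (a : α) (p : P) : ∃ q ≤ p, ∃ b, q ∈ x.v a b := by
  have h : p ∈ ⨆ b, x.v a b := by rw [x.tot]; exact RO.mem_top p
  exact RO.mem_iSup.1 h p le_rfl

theorem uniq {α β : Type} {x : Fun (RO P) α β} {a : α} {p : P} {b b' : β} (h : p ∈ x.v a b)
    (h' : p ∈ x.v a b') : b = b' := by
  by_contra hb
  have h1 : p ∈ x.v a b ⊓ x.v a b' := ⟨h, h'⟩
  rw [x.disj a b b' hb] at h1
  exact RO.notMem_bot p h1

/-- a name given by conditions -/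
def mk' {α β : Type} (R : α → β → Set P) (h1 : ∀ a b p q, q ≤ p → p ∈ R a b → q ∈ R a b)
    (h2 : ∀ a b b' p, p ∈ R a b → p ∈ R a b' → b = b') (h3 : ∀ a p, ∃ q ≤ p, ∃ b, q ∈ R a b) :
    Fun (RO P) α β where
  v a b := RO.gen (R a b)
  disj a b b' hb := by
    refine le_antisymm (fun p hp => ?_) bot_le
    obtain ⟨q, hq, s, hs, hqs⟩ := RO.mem_gen.1 hp.1 p le_rfl
    obtain ⟨r, hr, s', hs', hrs'⟩ := RO.mem_gen.1 hp.2 q hq
    exact absurd (h2 a b b' r (h1 a b s r (hr.trans hqs) hs) (h1 a b' s' r hrs' hs')) hb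
  tot a := by
    rw [RO.eq_top_iff']
    intro p
    refine RO.mem_iSup.2 fun q hq => ?_
    obtain ⟨r, hr, b, hb⟩ := h3 a q
    exact ⟨r, hr, b, RO.mem_gen.2 fun s hs => ⟨s, le_rfl, r, hb, hs⟩⟩

end Fun

theorem mem_eqv {α β : Type} {x y : Fun (RO P) α β} {p : P} :
    p ∈ eqv x y ↔ ∀ a, ∀ q ≤ p, ∀ b b', q ∈ x.v a b → q ∈ y.v a b' → b = b' := by
  unfold eqv
  rw [RO.mem_iInf]
  refine forall_congr' fun a => ?_
  constructor
  · intro h q hq b b' hb hb'
    obtain ⟨r, hr, c, hc⟩ := RO.mem_iSup.1 h q hq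
    rw [Fun.uniq (RO.mem_down hb hr) hc.1, Fun.uniq (RO.mem_down hb' hr) hc.2]
  · intro h
    refine RO.mem_iSup.2 fun q hq => ?_
    obtain ⟨r, hr, b, hb⟩ := x.decide a q
    obtain ⟨s, hs, b', hb'⟩ := y.decide a r
    have e := h s (hs.trans (hr.trans hq)) b b' (RO.mem_down hb hs) hb'
    exact ⟨s, hs.trans hr, b, RO.mem_down hb hs, e ▸ hb'⟩

end RO

/-! ## The generic functions -/

section gen

variable {Θ M : Type}

/-- the poset: finite pieces of `Θ` functions from `ℕ` to `M` -/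
abbrev Po (Θ M : Type) : Type := Fc (Θ × ℕ) M

/-- coordinates outside a finite set are free -/
theorem exists_free (p : Po Θ M) (θ : Θ) : ∃ N, ∀ n, N ≤ n → p.f (θ, n) = none := by
  have h1 : {n | p.f (θ, n) ≠ none}.Finite := by
    refine Set.Finite.preimage (f := fun n => (θ, n)) ?_ p.fin
    intro a _ b _ h
    exact (Prod.mk.inj h).2
  obtain ⟨N, hN⟩ := h1.bddAbove
  refine ⟨N + 1, fun n hn => ?_⟩
  by_contra h
  have := hN (show n ∈ {n | p.f (θ, n) ≠ none} from h)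
  omega

/-- the generic function with index `θ`, composed with `ρ` -/
def gn {β : Type} [Nonempty M] (θ : Θ) (ρ : M → β) : Fun (RO (Po Θ M)) ℕ β :=
  Fun.mk' (fun n b => {p | ∃ m, p.f (θ, n) = some m ∧ ρ m = b})
    (fun n b p q hq ⟨m, hm, hb⟩ => ⟨m, hq _ _ hm, hb⟩)
    (fun n b b' p ⟨m, hm, hb⟩ ⟨m', hm', hb'⟩ => by
      rw [hm] at hm'
      rw [← hb, ← hb', Option.some.inj hm'])
    (fun n p => by
      cases h : p.f (θ, n) with
      | some m => exact ⟨p, le_rfl, ρ m, m, h, rfl⟩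
      | none =>
        obtain ⟨m⟩ := (inferInstance : Nonempty M)
        obtain ⟨q, hq, hm⟩ := Fc.exists_one h m
        exact ⟨q, hq, ρ m, m, hm, rfl⟩)

theorem mem_gn {β : Type} [Nonempty M] {θ : Θ} {ρ : M → β} {n : ℕ} {b : β} {p : Po Θ M} {m : M}
    (h : p.f (θ, n) = some m) (hb : ρ m = b) : p ∈ (gn θ ρ).v n b :=
  RO.mem_gen.2 fun q hq => ⟨q, le_rfl, p, ⟨m, h, hb⟩, hq⟩

theorem of_mem_gn {β : Type} [Nonempty M] {θ : Θ} {ρ : M → β} {n : ℕ} {b : β} {p : Po Θ M}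
    {m : M} (h : p.f (θ, n) = some m) (hp : p ∈ (gn θ ρ).v n b) : ρ m = b :=
  Fun.uniq (mem_gn h rfl) hp

end gen

end CpB
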