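import Pool.Agent.CpB.Model

/-!
# MP_32ee98_gt, consistency input: the generic functions form a nonmeagre set (helper7)
-/

set_option autoImplicit false

namespace CpB

open CofSN Cardinal

section

variable {Θ M : Type} {μ : Cardinal.{0}}

open Classical in
/-- a finite piece of the function with index `θ` -/
noncomputable def piece (θ : Θ) (a b : ℕ) (w : ℕ → M) : Po Θ M where
  f x := if x.1 = θ ∧ a ≤ x.2 ∧ x.2 < b then some (w x.2) else none
  fin := by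
    refine ((Set.finite_lt_nat b).image fun n => (θ, n)).subset ?_
    rintro ⟨η, n⟩ h
    by_cases h1 : η = θ ∧ a ≤ n ∧ n < b
    · exact ⟨n, h1.2.2, by rw [h1.1]⟩
    · simp [h1] at h

theorem piece_some {θ : Θ} {a b : ℕ} {w : ℕ → M} {x : Θ × ℕ} {m : M} :
    (piece θ a b w).f x = some m ↔ (x.1 = θ ∧ a ≤ x.2 ∧ x.2 < b) ∧ w x.2 = m := by
  classical
  by_cases h : x.1 = θ ∧ a ≤ x.2 ∧ x.2 < b <;> simp [piece, h]

/-- the first values of a function can be decided without deciding more -/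
theorem exists_fill [Nonempty M] (p : Po Θ M) (θ : Θ) : ∃ q ≤ p, ∃ N, ∃ w : ℕ → M,
    (∀ n < N, q.f (θ, n) = some (w n)) ∧ ∀ n, N ≤ n → q.f (θ, n) = none := by
  classical
  obtain ⟨N, hN⟩ := exists_free p θ
  obtain ⟨m0⟩ := (inferInstance : Nonempty M)
  let q := Fc.ov p (piece θ 0 N fun _ => m0)
  refine ⟨q, Fc.ov_le_left _ _, N, fun n => (q.f (θ, n)).getD m0, ?_, ?_⟩
  · intro n hn
    have h1 : (piece θ 0 N fun _ => m0).f (θ, n) = some m0 :=
      piece_some.2 ⟨⟨rfl, Nat.zero_le _, hn⟩, rfl⟩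
    cases h : p.f (θ, n) with
    | none => simp [q, Fc.ov, h, h1]
    | some k => simp [q, Fc.ov, h]
  · intro n hn
    have h1 : (piece θ 0 N fun _ => m0).f (θ, n) = none := by
      cases h : (piece θ 0 N fun _ => m0).f (θ, n) with
      | none => rfl
      | some k =>
        have := (piece_some.1 h).1.2.2
        exact absurd this (not_lt.2 hn)
    simp [q, Fc.ov, hN n hn, h1]

/-- more than `μ` many generic functions are not meagre -/
theorem nonmeagre (h0 : ℵ₀ ≤ μ) (hM : #M ≤ μ) [Nonempty M] {ρ : M → ℕ}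
    (hρ : Function.Surjective ρ) {T : Type} (hT : μ < #T) {e : T → Θ}
    (he : Function.Injective e) (D : ℕ → List ℕ → RO (Po Θ M)) :
    denseSeq D ≤ ⨆ ξ : T, ⨅ n, ⨆ t, D n t ⊓ ini t (gn (e ξ) ρ) := by
  classical
  obtain ⟨S, hS1, hS2⟩ := common_supp h0 hM (le_refl μ) (I := ℕ × List ℕ)
    ((Cardinal.mk_le_aleph0 (α := ℕ × List ℕ)).trans h0) (fun i => D i.1 i.2)
  obtain ⟨ξ, hξ⟩ : ∃ ξ, ξ ∉ e ⁻¹' S :=
    exists_notMem hT ((Cardinal.mk_preimage_of_injective e S he).trans hS1)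
  have hθ : e ξ ∉ S := hξ
  intro p hp
  refine RO.mem_iSup.2 fun q hq => ⟨q, le_rfl, ξ, ?_⟩
  rw [RO.mem_iInf]
  intro n
  refine RO.mem_iSup.2 fun q' hq' => ?_
  obtain ⟨q1, hq1, N, w, hw1, hw2⟩ := exists_fill q' (e ξ)
  have h1 := RO.mem_down hp (hq1.trans (hq'.trans hq))
  obtain ⟨r, hr, t, ht⟩ := RO.mem_iSup.1
    (RO.mem_iInf.1 (RO.mem_iInf.1 h1 n) ((List.range N).map fun i => ρ (w i))) q1 le_rfl
  obtain ⟨r', hr', hpre, hD⟩ := RO.mem_iSup.1 ht r le_rfl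
  obtain ⟨σ, hσ⟩ : ∃ σ : ℕ → M, ∀ k, ρ (σ k) = k := ⟨Function.surjInv hρ,
    Function.surjInv_eq hρ⟩
  obtain ⟨u, hu1, hu2, hu3⟩ := merge (w := piece (e ξ) N t.length fun i => σ (t.getD i 0)) hθ
    (hr'.trans hr) (by
      rintro ⟨η, k⟩ m hm
      obtain ⟨⟨hη, hk1, hk2⟩, _⟩ := piece_some.1 hm
      simp only at hη hk1
      refine ⟨hη, ?_⟩
      rw [hη]
      exact hw2 k hk1)
  refine ⟨u, hu2.trans hq1, t, RO.mem_down (hS2 (n, t) r' hD) hu1, ?_⟩
  rw [ini, RO.mem_iInf]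
  intro i
  by_cases hi : (i : ℕ) < N
  · have h2 : (i : ℕ) < ((List.range N).map fun i => ρ (w i)).length := by simpa using hi
    have h3 := hpre.getElem h2
    have h4 : t[i] = ρ (w i) := by
      have : (t[i] : ℕ) = t[(i : ℕ)] := rfl
      rw [this, ← h3]
      simp
    exact mem_gn (hu2 _ _ (hw1 i hi)) h4.symm
  · have h2 : u.f (e ξ, (i : ℕ)) = some (σ (t.getD i 0)) := by
      refine hu3 _ _ (piece_some.2 ⟨⟨rfl, not_lt.1 hi, i.2⟩, rfl⟩)
    refine mem_gn h2 ?_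
    rw [hσ]
    simp

end

end CpB
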