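import Pool.Agent.CpB.Glue

/-!
# MP_8b2a7f_lc: one ideal with continuum many slalom numbers, in a Boolean valued universe
(helper54, from the many ideals of helper7)
-/

set_option autoImplicit false

namespace CpB

open CofSN Cardinal

theorem eqv_gs {Θ : Type} {θ θ' : Θ} (h : θ ≠ θ') :
    eqv (gs θ fun _ m => m) (gs θ' fun _ m => m) = (⊥ : RO (Po Θ ℕ)) := by
  rw [eq_bot_iff]
  intro p hp
  rw [mem_eqv] at hp
  obtain ⟨N, hN⟩ := exists_free_all p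
  have hc : ∀ x k l, (Fc.one (θ', N) 1).f x = some k → p.f x = some l → k = l := by
    intro x k l h1 h2
    obtain ⟨h3, _⟩ := Fc.one_some.1 h1
    rw [h3, hN θ' N le_rfl] at h2
    simp at h2
  have h1 : (Fc.ov (Fc.one (θ', N) 1) p).f (θ', N) = some 1 :=
    Fc.ov_le_left _ _ _ _ (Fc.one_some.2 ⟨rfl, rfl⟩)
  have h2 : (Fc.ov (Fc.one (θ', N) 1) p).f (θ, N) = none := by
    have h3 : (Fc.one (θ', N) 1).f (θ, N) = none := by
      cases h4 : (Fc.one (θ', N) 1).f (θ, N) with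
      | none => rfl
      | some k => exact absurd (Prod.mk.inj (Fc.one_some.1 h4).1).1 h
    simp [Fc.ov, h3, hN θ N le_rfl]
  obtain ⟨r, hr, hr0⟩ := Fc.exists_one h2 0
  have h3 := hp N r (hr.trans (Fc.ov_le_right hc)) 0 1 (mem_gs hr0 rfl) (mem_gs (hr _ _ h1) rfl)
  exact absurd h3 zero_ne_one

theorem oneIdeal : ∃ (B : Type) (_ : CompleteBooleanAlgebra B) (Λ : Type) (K : Λ → Type)
    (J : (ℕ → B) → B) (h : Λ → Fun B ℕ ℕ), (⊥ : B) ≠ ⊤ ∧
    (∀ X Y : Type, ℵ₀ < #Y → #X < #Y → noSurj B X Y = ⊤) ∧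
    (∀ l l', l ≠ l' → noSurj B (K l) (K l') ⊔ noSurj B (K l') (K l) = ⊤) ∧
    (∃ y : Λ → Fun B ℕ ℕ, ∀ x, ⨆ l, eqv (y l) x = ⊤) ∧
    isIdeal J = ⊤ ∧ ∀ l, slEq (h l) J (K l) = ⊤ := by
  classical
  obtain ⟨c, h0, hsl, hfix, hcof⟩ := exists_fix
  let Θ : Type := c.out
  have hΘ : #Θ = c := Cardinal.mk_out c
  obtain ⟨Λ, o, hΛ, ho, hoi⟩ : ∃ (Λ : Type) (o : Λ → Ordinal.{0}), #Λ = c ∧
      (∀ l, o l < c.ord) ∧ ∀ l l', o l = o l' → l = l' :=
    ⟨c.ord.ToType, fun l => Ordinal.typein (α := c.ord.ToType) (· < ·) l,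
      Cardinal.mk_ord_toType c, fun l => Ordinal.typein_lt_self l,
      fun l l' h => Ordinal.typein_injective _ h⟩
  let K : Λ → Type := fun l => (Cardinal.ord (ℵ_ (o l + 1))).ToType
  have hK : ∀ l, #(K l) = ℵ_ (o l + 1) := fun l => Cardinal.mk_ord_toType _
  have hinf : ∀ l, ℵ₀ < ℵ_ (o l + 1) := by
    intro l
    rw [Cardinal.aleph0_lt_aleph]
    exact Order.lt_add_one_iff.2 zero_le
  have hnames : #(Fun (RO (Po Θ ℕ)) ℕ ℕ) ≤ c := card_names hsl hcof hΘ.le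
  have hns : ∀ X Y : Type, ℵ₀ < #Y → #X < #Y → noSurj (RO (Po Θ ℕ)) X Y = ⊤ := by
    intro X Y hY hXY
    exact noSurj_eq_top (le_refl ℵ₀) Cardinal.mk_nat.le hXY hY
  have hJ : ∀ l, ∃ J : (ℕ → RO (Po Θ ℕ)) → RO (Po Θ ℕ), isIdeal J = ⊤ ∧
      (∃ s : K l → Fun (RO (Po Θ ℕ)) ℕ (Finset ℕ), (∀ a, isSlalom (fun n => n) (s a) = ⊤) ∧
        ∀ x, ⨆ a, (J (inn x (s a)))ᶜ = ⊤) ∧
      ∀ I : Type, #I < #(K l) → ∀ s : I → Fun (RO (Po Θ ℕ)) ℕ (Finset ℕ),
        ⨆ x, ⨅ i, J (inn x (s i)) = ⊤ := by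
    intro l
    have hreg : (ℵ_ (o l + 1)).IsRegular := by
      rw [← Cardinal.succ_aleph]
      exact Cardinal.isRegular_succ (Cardinal.aleph0_le_aleph _)
    have hcofK : Order.cof (K l) = ℵ_ (o l + 1) := by
      rw [Ordinal.cof_toType]
      exact hreg.cof_ord
    obtain ⟨e⟩ : Nonempty (K l × Bool ↪ Θ) := by
      have h : #(K l × Bool) ≤ #Θ := by
        rw [Cardinal.mk_prod, Cardinal.lift_id, Cardinal.lift_id, hK, hΘ]
        have h1 : #Bool ≤ c := (Cardinal.mk_le_aleph0 (α := Bool)).trans h0.le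
        exact (mul_le_mul' (hfix _ (ho l)).le h1).trans (Cardinal.mul_eq_self h0.le).le
      exact h
    exact ⟨JJ e, slalom_main e.injective (by rw [hcofK]; exact hinf l) (by rw [hcofK, hK])⟩
  choose J hJ1 hJ2 hJ3 using hJ
  obtain ⟨θ⟩ : Nonempty (Λ ↪ Θ) := by
    have h : #Λ ≤ #Θ := by rw [hΛ, hΘ]
    exact h
  let r : Λ → Fun (RO (Po Θ ℕ)) ℕ ℕ := fun l => gs (θ l) fun _ m => m
  have hr : ∀ l l', l ≠ l' → eqv (r l) (r l') = ⊥ := fun l l' h =>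
    eqv_gs fun h' => h (θ.injective h')
  have hΛn : Nonempty Λ := by
    rw [← Cardinal.mk_ne_zero_iff, hΛ]
    exact (Cardinal.aleph0_pos.trans h0).ne'
  have hJg : ∀ A, glue r J A = glue r J A := fun _ => rfl
  refine ⟨RO (Po Θ ℕ), inferInstance, Λ, K, glue r J, fun l => hl (r l), nontriv, hns, ?_, ?_,
    isIdeal_glue hJ1, ?_⟩
  · intro l l' hl
    have hne : #(K l) ≠ #(K l') := by
      intro h
      rw [hK, hK] at h
      have h1 := Cardinal.aleph.injective h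
      have h2 : o l = o l' := by simpa using h1
      exact hl (hoi l l' h2)
    rcases lt_or_gt_of_ne hne with h | h
    · rw [hns (K l) (K l') (by rw [hK]; exact hinf l') h, top_sup_eq]
    · rw [hns (K l') (K l) (by rw [hK]; exact hinf l) h, sup_top_eq]
  · have h1 : #(Fun (RO (Po Θ ℕ)) ℕ ℕ) ≤ #Λ := by rw [hΛ]; exact hnames
    obtain ⟨j⟩ := h1
    have : Nonempty (Fun (RO (Po Θ ℕ)) ℕ ℕ) := ⟨r hΛn.some⟩
    refine ⟨Function.invFun j, fun x => ?_⟩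
    rw [eq_top_iff]
    refine le_iSup_of_le (j x) ?_
    rw [Function.leftInverse_invFun j.injective]
    intro p _
    rw [mem_eqv]
    exact fun a q _ b b' hb hb' => Fun.uniq hb hb'
  · intro l
    unfold slEq
    rw [eq_top_iff]
    refine le_inf ?_ ?_
    · obtain ⟨s, hs1, hs2⟩ := hJ2 l
      refine le_iSup_of_le (fun a => tr ∅ (r l) (s a)) (le_inf ?_ ?_)
      · exact le_iInf fun a => (slalomOf_tr (r l) (hs1 a)).ge
      · exact le_iInf fun x => (glue_upper hJ1 hs2 x).ge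
    · refine le_iInf fun I => le_iInf fun hI => le_iInf fun s => ?_
      rw [le_himp_iff, top_inf_eq]
      exact glue_lower hr hJ1 (hJ3 l I hI) s

end CpB
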