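import Pool.Agent.CofSN.RO

/-!
# MP_32ee98_gt, consistency input: finite functions (helper7)

`Fc X M` is the poset of the finite pieces of functions from `X` to `M`. If `#M ≤ μ` for an
infinite cardinal `μ`, all antichains have size at most `μ`, and every regular set is determined
by the restrictions of conditions to at most `μ` coordinates.
-/

set_option autoImplicit false

namespace CpB

open CofSN Cardinal

/-- finite pieces of functions from `X` to `M` -/
@[ext] structure Fc (X M : Type) where
  f : X → Option M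
  fin : {x | f x ≠ none}.Finite

namespace Fc

variable {X M : Type}

instance : Preorder (Fc X M) where
  le q p := ∀ x k, p.f x = some k → q.f x = some k
  le_refl _ _ _ h := h
  le_trans _ _ _ h1 h2 x k h := h1 x k (h2 x k h)

theorem le_def {q p : Fc X M} : q ≤ p ↔ ∀ x k, p.f x = some k → q.f x = some k := Iff.rfl

/-- the first condition, completed by the second one -/
def ov (p q : Fc X M) : Fc X M where
  f x := (p.f x).or (q.f x)
  fin := by
    refine (p.fin.union q.fin).subset fun x hx => ?_
    by_cases h : p.f x = none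
    · right
      simpa [h] using hx
    · exact Or.inl h

theorem ov_le_left (p q : Fc X M) : ov p q ≤ p := by
  intro x k h
  simp [ov, h]

theorem ov_le_right {p q : Fc X M} (h : ∀ x k l, p.f x = some k → q.f x = some l → k = l) :
    ov p q ≤ q := by
  intro x l hl
  cases hp : p.f x with
  | none => simp [ov, hp, hl]
  | some k =>
    have := h x k l hp hl
    subst this
    simp [ov, hp]

/-- compatibility of conditions -/
def Comp (p q : Fc X M) : Prop := ∃ r, r ≤ p ∧ r ≤ q

theorem comp_iff {p q : Fc X M} :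
    Comp p q ↔ ∀ x k l, p.f x = some k → q.f x = some l → k = l := by
  constructor
  · rintro ⟨r, h1, h2⟩ x k l hk hl
    have h3 := h1 x k hk
    rw [h2 x l hl] at h3
    exact (Option.some.inj h3).symm
  · intro h
    exact ⟨ov p q, ov_le_left p q, ov_le_right h⟩

open Classical in
/-- the condition without the coordinate `x` -/
noncomputable def er (x : X) (p : Fc X M) : Fc X M where
  f y := if y = x then none else p.f y
  fin := by
    refine p.fin.subset fun y hy => ?_
    by_cases h : y = x
    · simp [h] at hy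
    · simpa [h] using hy

open Classical in
/-- restriction to a set of coordinates -/
noncomputable def res (S : Set X) (p : Fc X M) : Fc X M where
  f y := if y ∈ S then p.f y else none
  fin := by
    refine p.fin.subset fun y hy => ?_
    by_cases h : y ∈ S
    · simpa [h] using hy
    · simp [h] at hy

theorem res_some {S : Set X} {p : Fc X M} {x : X} {k : M} :
    (res S p).f x = some k ↔ x ∈ S ∧ p.f x = some k := by
  classical
  by_cases h : x ∈ S <;> simp [res, h]

theorem le_res (S : Set X) (p : Fc X M) : p ≤ res S p := fun _ _ h => (res_some.1 h).2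

theorem res_mono {S : Set X} {p q : Fc X M} (h : p ≤ q) : res S p ≤ res S q := by
  intro x k hk
  obtain ⟨h1, h2⟩ := res_some.1 hk
  exact res_some.2 ⟨h1, h x k h2⟩

theorem res_le_res {S S' : Set X} (h : S ⊆ S') (p : Fc X M) : res S' p ≤ res S p := by
  intro x k hk
  obtain ⟨h1, h2⟩ := res_some.1 hk
  exact res_some.2 ⟨h h1, h2⟩

open Classical in
/-- one value -/
noncomputable def one (x : X) (m : M) : Fc X M where
  f y := if y = x then some m else none
  fin := by
    refine (Set.finite_singleton x).subset fun y hy => ?_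
    by_cases h : y = x
    · exact h
    · simp [h] at hy

theorem one_some {x y : X} {m k : M} : (one x m).f y = some k ↔ y = x ∧ m = k := by
  classical
  by_cases h : y = x <;> simp [one, h]

/-- the empty condition -/
def emp : Fc X M where
  f _ := none
  fin := by simp

theorem le_emp (p : Fc X M) : p ≤ emp := by
  intro x k h
  simp [emp] at h

/-- a condition with the value `m` at `x`, if nothing else was known there -/
theorem exists_one {p : Fc X M} {x : X} (h : p.f x = none) (m : M) :
    ∃ q ≤ p, q.f x = some m := by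
  refine ⟨ov p (one x m), ov_le_left _ _, ?_⟩
  have : (one x m).f x = some m := one_some.2 ⟨rfl, rfl⟩
  simp [ov, h, this]

section card

variable {μ : Cardinal.{0}}

theorem card_of_fibers {α β : Type} (g : α → β) (h0 : ℵ₀ ≤ μ) (hβ : #β ≤ μ)
    (h : ∀ b, #{a // g a = b} ≤ μ) : #α ≤ μ := by
  rw [← Cardinal.mk_congr (Equiv.sigmaFiberEquiv g), Cardinal.mk_sigma]
  calc Cardinal.sum (fun b : β => #{a // g a = b}) ≤ Cardinal.sum (fun _ : β => μ) :=
        Cardinal.sum_le_sum _ _ h
    _ = #β * μ := by rw [Cardinal.sum_const']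
    _ ≤ μ * μ := mul_le_mul' hβ le_rfl
    _ = μ := Cardinal.mul_eq_self h0

theorem card_iUnion {ι α : Type} (S : ι → Set α) (h0 : ℵ₀ ≤ μ) (hι : #ι ≤ μ)
    (h : ∀ i, #(S i) ≤ μ) : #(⋃ i, S i : Set α) ≤ μ := by
  calc #(⋃ i, S i : Set α) ≤ Cardinal.sum (fun i => #(S i)) := Cardinal.mk_iUnion_le_sum_mk
    _ ≤ Cardinal.sum (fun _ : ι => μ) := Cardinal.sum_le_sum _ _ h
    _ = #ι * μ := by rw [Cardinal.sum_const']
    _ ≤ μ * μ := mul_le_mul' hι le_rfl
    _ = μ := Cardinal.mul_eq_self h0

theorem antichain_aux (h0 : ℵ₀ ≤ μ) (hM : #M ≤ μ) (n : ℕ) : ∀ (ι : Type) (c : ι → Fc X M),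
    (∀ i, {x | (c i).f x ≠ none}.ncard = n) → (∀ i j, i ≠ j → ¬ Comp (c i) (c j)) →
    #ι ≤ μ := by
  classical
  induction n with
  | zero =>
    intro ι c hn hc
    have : Subsingleton ι := by
      constructor
      intro i j
      by_contra hij
      refine hc i j hij (comp_iff.2 ?_)
      intro x k l hk _
      have h1 : x ∈ {x | (c i).f x ≠ none} := by
        simp [hk]
      rw [(Set.ncard_eq_zero (c i).fin).1 (hn i)] at h1
      exact absurd h1 (Set.notMem_empty x)
    exact (Cardinal.le_one_iff_subsingleton.2 this).trans (one_le_aleph0.trans h0)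
  | succ n ih =>
    intro ι c hn hc
    rcases isEmpty_or_nonempty ι with he | ⟨⟨i0⟩⟩
    · simp
    -- outside `i0` choose a coordinate of incompatibility
    have hx : ∀ i : {i // i ≠ i0}, ∃ x : {x | (c i0).f x ≠ none}, ∃ m : M,
        (c i).f x = some m ∧ (c i0).f x ≠ some m := by
      rintro ⟨i, hi⟩
      have h1 := hc i i0 hi
      rw [comp_iff] at h1
      push Not at h1
      obtain ⟨x, k, l, hk, hl, hkl⟩ := h1
      refine ⟨⟨x, by simp [hl]⟩, k, hk, ?_⟩
      simp only
      rw [hl]
      intro h
      exact hkl (Option.some.inj h).symm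
    choose gx gm hg1 hg2 using hx
    have hfin : #{x | (c i0).f x ≠ none} ≤ μ := by
      have := (c i0).fin.to_subtype
      exact (Cardinal.lt_aleph0_of_finite _).le.trans h0
    have h1 : #{i // i ≠ i0} ≤ μ := by
      refine card_of_fibers (fun i => (gx i, gm i)) h0 ?_ ?_
      · rw [Cardinal.mk_prod, Cardinal.lift_id, Cardinal.lift_id]
        exact (mul_le_mul' hfin hM).trans (Cardinal.mul_eq_self h0).le
      · rintro ⟨x, m⟩
        refine ih _ (fun i => er (x : X) (c i.1)) ?_ ?_
        · rintro ⟨i, hi⟩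
          obtain ⟨hi1, hi2⟩ := Prod.mk.inj hi
          have h2 := hg1 i
          rw [hi1, hi2] at h2
          have h3 : {y | (er (x : X) (c i)).f y ≠ none} =
              {y | (c i).f y ≠ none} \ {(x : X)} := by
            ext y
            by_cases h : y = (x : X) <;> simp [er, h]
          simp only
          rw [h3, Set.ncard_sdiff_singleton_of_mem (by simp [h2]), hn]
          rfl
        · rintro ⟨i, hi⟩ ⟨j, hj⟩ hij hcomp
          obtain ⟨hi1, hi2⟩ := Prod.mk.inj hi
          obtain ⟨hj1, hj2⟩ := Prod.mk.inj hj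
          have h2 := hg1 i
          rw [hi1, hi2] at h2
          have h3 := hg1 j
          rw [hj1, hj2] at h3
          refine hc i j (fun h => hij (Subtype.ext (Subtype.ext h))) (comp_iff.2 ?_)
          intro y k l hk hl
          by_cases hy : y = (x : X)
          · subst hy
            rw [h2] at hk
            rw [h3] at hl
            rw [← Option.some.inj hk, ← Option.some.inj hl]
          · refine comp_iff.1 hcomp y k l ?_ ?_
            · simpa [er, hy] using hk
            · simpa [er, hy] using hl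
    have h2 : #ι ≤ #{i // i ≠ i0} + 1 := by
      have h3 : #ι = #({i0}ᶜ : Set ι) + #({i0} : Set ι) := by
        rw [add_comm]
        exact (Cardinal.mk_sum_compl ({i0} : Set ι)).symm
      rw [h3, Cardinal.mk_singleton]
      exact le_rfl
    refine h2.trans ((add_le_add h1 (one_le_aleph0.trans h0)).trans ?_)
    exact (Cardinal.add_eq_self h0).le

/-- antichains have size at most `μ` -/
theorem antichain_card (h0 : ℵ₀ ≤ μ) (hM : #M ≤ μ) {ι : Type} (c : ι → Fc X M)
    (hc : ∀ i j, i ≠ j → ¬ Comp (c i) (c j)) : #ι ≤ μ := by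
  refine card_of_fibers (fun i => {x | (c i).f x ≠ none}.ncard) h0
    (Cardinal.mk_nat.le.trans h0) fun n => ?_
  exact antichain_aux h0 hM n _ (fun i => c i.1) (fun i => i.2)
    (fun i j hij => hc i.1 j.1 fun h => hij (Subtype.ext h))

/-- disjoint families have at most `μ` nonzero members -/
theorem card_ne_bot (h0 : ℵ₀ ≤ μ) (hM : #M ≤ μ) {β : Type} (u : β → RO (Fc X M))
    (hu : ∀ b b', b ≠ b' → u b ⊓ u b' = ⊥) : #{b | u b ≠ ⊥} ≤ μ := by
  have h1 : ∀ b : {b | u b ≠ ⊥}, ∃ p, p ∈ u b := by
    rintro ⟨b, hb⟩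
    by_contra hcon
    push Not at hcon
    exact hb (le_antisymm (fun p hp => absurd hp (hcon p)) bot_le)
  choose c hc using h1
  refine antichain_card h0 hM c ?_
  rintro i j hij ⟨r, hr1, hr2⟩
  have h2 : r ∈ u i ⊓ u j := ⟨RO.mem_down (hc i) hr1, RO.mem_down (hc j) hr2⟩
  rw [hu i j fun h => hij (Subtype.ext h)] at h2
  exact RO.notMem_bot _ h2

/-- every regular set has a support of size at most `μ` -/
theorem exists_supp (h0 : ℵ₀ ≤ μ) (hM : #M ≤ μ) (U : RO (Fc X M)) :
    ∃ S : Set X, #S ≤ μ ∧ ∀ p ∈ U, res S p ∈ U := by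
  classical
  -- a maximal antichain in `U`
  obtain ⟨A, hA⟩ := zorn_subset {A : Set (Fc X M) | (∀ a ∈ A, a ∈ U) ∧
    ∀ a ∈ A, ∀ b ∈ A, a ≠ b → ¬ Comp a b} (by
      intro c hc hch
      refine ⟨⋃₀ c, ⟨?_, ?_⟩, fun s hs => Set.subset_sUnion_of_mem hs⟩
      · rintro a ⟨s, hs, ha⟩
        exact (hc hs).1 a ha
      · rintro a ⟨s, hs, ha⟩ b ⟨t, ht, hb⟩ hab
        rcases hch.total hs ht with h | h
        · exact (hc ht).2 a (h ha) b hb hab
        · exact (hc hs).2 a ha b (h hb) hab)
  have hA1 := hA.prop.1
  have hA2 := hA.prop.2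
  have hA3 : ∀ p ∈ U, ∃ a ∈ A, Comp p a := by
    intro p hp
    by_contra hcon
    push Not at hcon
    have h1 : insert p A ∈ {A : Set (Fc X M) | (∀ a ∈ A, a ∈ U) ∧
        ∀ a ∈ A, ∀ b ∈ A, a ≠ b → ¬ Comp a b} := by
      constructor
      · intro a ha
        rcases ha with rfl | ha
        · exact hp
        · exact hA1 a ha
      · intro a ha b hb hab
        rcases ha with rfl | ha
        · rcases hb with rfl | hb
          · exact absurd rfl hab
          · exact hcon b hb
        · rcases hb with rfl | hb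
          · rintro ⟨r, h1, h2⟩
            exact hcon a ha ⟨r, h2, h1⟩
          · exact hA2 a ha b hb hab
    have h2 := hA.le_of_ge h1 (Set.subset_insert p A)
    exact hcon p (h2 (Set.mem_insert p A)) ⟨p, le_rfl, le_rfl⟩
  have hcA : #A ≤ μ := antichain_card h0 hM (fun a : A => (a : Fc X M))
    fun a b hab => hA2 a a.2 b b.2 fun h => hab (Subtype.ext h)
  refine ⟨⋃ a : A, {x | (a : Fc X M).f x ≠ none}, card_iUnion _ h0 hcA ?_, ?_⟩
  · intro a
    have := (a : Fc X M).fin.to_subtype
    exact (Cardinal.lt_aleph0_of_finite _).le.trans h0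
  set S : Set X := ⋃ a : A, {x | (a : Fc X M).f x ≠ none} with hS
  intro p hp
  by_contra hcon
  obtain ⟨q, hq, hqU⟩ := RO.exists_compl hcon
  rw [RO.mem_compl] at hqU
  -- `res S q` and `p` are compatible
  have h1 : Comp (res S q) p := by
    rw [comp_iff]
    intro x k l hk hl
    obtain ⟨hxS, hqk⟩ := res_some.1 hk
    have h2 := hq x l (res_some.2 ⟨hxS, hl⟩)
    rw [hqk] at h2
    exact Option.some.inj h2
  obtain ⟨r, hr1, hr2⟩ := h1
  obtain ⟨a, ha, s, hs1, hs2⟩ := hA3 r (RO.mem_down hp hr2)
  -- `a` is compatible with `q`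
  have h3 : Comp q a := by
    rw [comp_iff]
    intro x k l hk hl
    have hxS : x ∈ S := by
      rw [hS]
      exact Set.mem_iUnion.2 ⟨⟨a, ha⟩, by simp [hl]⟩
    have h4 := hs1 x k (hr1 x k (res_some.2 ⟨hxS, hk⟩))
    rw [hs2 x l hl] at h4
    exact (Option.some.inj h4).symm
  obtain ⟨t, ht1, ht2⟩ := h3
  exact hqU t ht1 (RO.mem_down (hA1 a ha) ht2)

end card

end Fc

end CpB
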