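import Pool.Agent.CpB.Ideal
import Pool.Agent.CpB.Model
import Pool.Agent.CpB.Fix

/-!
# MP_8b2a7f_lc: many values of slalom numbers in the Cohen model (helper7)
-/

set_option autoImplicit false

namespace CpB

open CofSN Cardinal

/-! ## Slaloms coded by numbers -/

/-- the finite set coded by `m`, if it has at most `n` elements -/
noncomputable def sig (n m : ℕ) : Finset ℕ :=
  match (Encodable.decode m : Option (Finset ℕ)) with
  | some T => if T.card ≤ n then T else ∅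
  | none => ∅

theorem sig_card (n m : ℕ) : (sig n m).card ≤ n := by
  unfold sig
  split
  · split_ifs with h
    · exact h
    · simp
  · simp

theorem sig_surj (n : ℕ) (T : Finset ℕ) (h : T.card ≤ n) : ∃ m, sig n m = T := by
  refine ⟨Encodable.encode T, ?_⟩
  unfold sig
  rw [Encodable.encodek]
  simp only
  rw [if_pos h]

section

variable {Θ K : Type}

/-- the generic function with index `θ`, with its values decoded -/
def gs {β : Type} (θ : Θ) (ρ : ℕ → ℕ → β) : Fun (RO (Po Θ ℕ)) ℕ β :=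
  Fun.mk' (fun n b => {p | ∃ m, p.f (θ, n) = some m ∧ ρ n m = b})
    (fun n b p q hq ⟨m, hm, hb⟩ => ⟨m, hq _ _ hm, hb⟩)
    (fun n b b' p ⟨m, hm, hb⟩ ⟨m', hm', hb'⟩ => by
      rw [hm] at hm'
      rw [← hb, ← hb', Option.some.inj hm'])
    (fun n p => by
      cases h : p.f (θ, n) with
      | some m => exact ⟨p, le_rfl, ρ n m, m, h, rfl⟩
      | none =>
        obtain ⟨q, hq, hm⟩ := Fc.exists_one h 0
        exact ⟨q, hq, ρ n 0, 0, hm, rfl⟩)

theorem mem_gs {β : Type} {θ : Θ} {ρ : ℕ → ℕ → β} {n : ℕ} {b : β} {p : Po Θ ℕ} {m : ℕ}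
    (h : p.f (θ, n) = some m) (hb : ρ n m = b) : p ∈ (gs θ ρ).v n b :=
  RO.mem_gen.2 fun q hq => ⟨q, le_rfl, p, ⟨m, h, hb⟩, hq⟩

theorem exists_free_all (p : Po Θ ℕ) : ∃ N, ∀ θ n, N ≤ n → p.f (θ, n) = none := by
  obtain ⟨N, hN⟩ := (p.fin.image Prod.snd).bddAbove
  refine ⟨N + 1, fun θ n hn => ?_⟩
  by_contra h
  have := hN ⟨(θ, n), h, rfl⟩
  omega

/-- the set `W` of coordinates supports `U` -/
def Sp (W : Set Θ) (U : RO (Po Θ ℕ)) : Prop := ∀ p ∈ U, Fc.res (W ×ˢ Set.univ) p ∈ U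

theorem Sp.mono {W W' : Set Θ} {U : RO (Po Θ ℕ)} (h : Sp W U) (hW : W ⊆ W') : Sp W' U :=
  fun p hp => RO.mem_down (h p hp)
    (Fc.res_le_res (Set.prod_mono hW (Set.Subset.refl Set.univ)) p)

variable [LinearOrder K]

/-- the coordinates of level `α` -/
def Lv (e : K × Bool → Θ) (α : K) : Set Θ := {θ | ∀ β b, α ≤ β → θ ≠ e (β, b)}

/-- the name has level `α` -/
def lev (e : K × Bool → Θ) (α : K) {β : Type} (x : Fun (RO (Po Θ ℕ)) ℕ β) : Prop :=
  ∀ n b, Sp (Lv e α) (x.v n b)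

/-- indices of generators -/
abbrev Gi (Θ K : Type) : Type :=
  (K × Fun (RO (Po Θ ℕ)) ℕ ℕ) ⊕ (K × Fun (RO (Po Θ ℕ)) ℕ (Finset ℕ))

/-- the position of a generator -/
def Gi.idx : Gi Θ K → K
  | Sum.inl g => g.1
  | Sum.inr g => g.1

/-- the name of a generator has the level of its position -/
def Gi.good (e : K × Bool → Θ) : Gi Θ K → Prop
  | Sum.inl g => lev e g.1 g.2
  | Sum.inr g => lev e g.1 g.2

/-- the generic slalom at the position `α` -/
noncomputable def SS (e : K × Bool → Θ) (α : K) : Fun (RO (Po Θ ℕ)) ℕ (Finset ℕ) :=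
  gs (e (α, false)) sig

/-- the generic real at the position `α` -/
def CC (e : K × Bool → Θ) (α : K) : Fun (RO (Po Θ ℕ)) ℕ ℕ := gs (e (α, true)) fun _ m => m

/-- the generators -/
noncomputable def Gi.val (e : K × Bool → Θ) : Gi Θ K → ℕ → RO (Po Θ ℕ)
  | Sum.inl g, n => (inn g.2 (SS e g.1) n)ᶜ
  | Sum.inr g, n => inn (CC e g.1) g.2 n

/-- the condition `q` forces that `n` is not in the generator -/
def Gi.hd (e : K × Bool → Θ) (n : ℕ) (q : Po Θ ℕ) : Gi Θ K → Prop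
  | Sum.inl g => ∃ a T, a ∈ T ∧ q ∈ g.2.v n a ∧ q ∈ (SS e g.1).v n T
  | Sum.inr g => ∃ a T, a ∉ T ∧ q ∈ (CC e g.1).v n a ∧ q ∈ g.2.v n T

theorem Gi.hd_mono {e : K × Bool → Θ} {n : ℕ} {q r : Po Θ ℕ} (h : r ≤ q) {g : Gi Θ K}
    (hg : g.hd e n q) : g.hd e n r := by
  cases g with
  | inl g =>
    obtain ⟨a, T, h1, h2, h3⟩ := hg
    exact ⟨a, T, h1, RO.mem_down h2 h, RO.mem_down h3 h⟩
  | inr g =>
    obtain ⟨a, T, h1, h2, h3⟩ := hg
    exact ⟨a, T, h1, RO.mem_down h2 h, RO.mem_down h3 h⟩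

theorem Gi.notMem_of_hd {e : K × Bool → Θ} {n : ℕ} {q : Po Θ ℕ} {g : Gi Θ K}
    (hg : g.hd e n q) : q ∉ g.val e n := by
  cases g with
  | inl g =>
    obtain ⟨a, T, h1, h2, h3⟩ := hg
    intro hcon
    refine RO.mem_compl.1 hcon q le_rfl ?_
    exact RO.mem_iSup.2 fun r hr => ⟨r, le_rfl, a, RO.mem_iSup.2 fun r' hr' => ⟨r', le_rfl, T,
      RO.mem_iSup.2 fun r'' hr'' => ⟨r'', le_rfl, h1,
        RO.mem_down h2 (hr''.trans (hr'.trans hr)), RO.mem_down h3 (hr''.trans (hr'.trans hr))⟩⟩⟩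
  | inr g =>
    obtain ⟨a, T, h1, h2, h3⟩ := hg
    intro hcon
    obtain ⟨r, hr, a', hcon⟩ := RO.mem_iSup.1 hcon q le_rfl
    obtain ⟨r', hr', T', hcon⟩ := RO.mem_iSup.1 hcon r le_rfl
    obtain ⟨r'', hr'', haT, h4, h5⟩ := RO.mem_iSup.1 hcon r' le_rfl
    have hle : r'' ≤ q := hr''.trans (hr'.trans hr)
    have h6 := Fun.uniq (RO.mem_down h2 hle) h4
    have h7 := Fun.uniq (RO.mem_down h3 hle) h5
    rw [h6, h7] at h1
    exact h1 haT

/-- the condition `q` decides the name of the generator at `n` -/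
def Gi.dd (n : ℕ) (q : Po Θ ℕ) : Gi Θ K → Prop
  | Sum.inl g => ∃ a, q ∈ g.2.v n a
  | Sum.inr g => ∃ T, q ∈ g.2.v n T

theorem Gi.exists_dd (F : Finset (Gi Θ K)) (n : ℕ) (q : Po Θ ℕ) :
    ∃ r ≤ q, ∀ g ∈ F, g.dd n r := by
  classical
  induction F using Finset.induction_on with
  | empty => exact ⟨q, le_rfl, by simp⟩
  | insert g F _ ih =>
    obtain ⟨r, hr, h⟩ := ih
    have h1 : ∃ r' ≤ r, g.dd n r' := by
      cases g with
      | inl g =>
        obtain ⟨r', hr', a, ha⟩ := g.2.decide n r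
        exact ⟨r', hr', a, ha⟩
      | inr g =>
        obtain ⟨r', hr', a, ha⟩ := g.2.decide n r
        exact ⟨r', hr', a, ha⟩
    obtain ⟨r', hr', hg⟩ := h1
    refine ⟨r', hr'.trans hr, fun g' hg' => ?_⟩
    rcases Finset.mem_insert.1 hg' with rfl | hg'
    · exact hg
    · have h2 := h g' hg'
      cases g' with
      | inl g' =>
        obtain ⟨a, ha⟩ := h2
        exact ⟨a, RO.mem_down ha hr'⟩
      | inr g' =>
        obtain ⟨a, ha⟩ := h2
        exact ⟨a, RO.mem_down ha hr'⟩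

/-- one position is treated -/
theorem Gi.step {e : K × Bool → Θ} (he : Function.Injective e) (α : K) (F : Finset (Gi Θ K))
    (hF : ∀ g ∈ F, g.good e) (hidx : ∀ g ∈ F, g.idx = α) {n : ℕ} (hn : F.card ≤ n)
    (q : Po Θ ℕ) (hq : ∀ b, q.f (e (α, b), n) = none) :
    ∃ q' ≤ q, (∀ g ∈ F, g.hd e n q') ∧ ∀ β, α < β → ∀ b m, q'.f (e (β, b), m) =
      q.f (e (β, b), m) := by
  classical
  obtain ⟨r, hr, hdd⟩ := Gi.exists_dd F n q
  let r' := Fc.res (Lv e α ×ˢ Set.univ) r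
  have hdd' : ∀ g ∈ F, g.dd n r' := by
    intro g hg
    have h1 := hdd g hg
    have h2 := hF g hg
    have h3 := hidx g hg
    cases g with
    | inl g =>
      obtain ⟨a, ha⟩ := h1
      have h4 : g.1 = α := h3
      have h5 := h2 n a r ha
      rw [h4] at h5
      exact ⟨a, h5⟩
    | inr g =>
      obtain ⟨a, ha⟩ := h1
      have h4 : g.1 = α := h3
      have h5 := h2 n a r ha
      rw [h4] at h5
      exact ⟨a, h5⟩
  let u := Fc.ov r' q
  have hu1 : u ≤ r' := Fc.ov_le_left _ _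
  have hu2 : u ≤ q := by
    refine Fc.ov_le_right ?_
    intro x k l hk hl
    have h1 := (Fc.res_some.1 hk).2
    rw [hr x l hl] at h1
    exact (Option.some.inj h1).symm
  have hr'n : ∀ β, α ≤ β → ∀ b m, r'.f (e (β, b), m) = none := by
    intro β hβ b m
    cases h : r'.f (e (β, b), m) with
    | none => rfl
    | some k =>
      have h1 := (Fc.res_some.1 h).1.1
      exact absurd rfl (h1 β b hβ)
  have huf : ∀ β, α ≤ β → ∀ b m, u.f (e (β, b), m) = q.f (e (β, b), m) := by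
    intro β hβ b m
    simp [u, Fc.ov, hr'n β hβ b m]
  -- the values
  have hval : ∀ g : Gi Θ K, ∃ a : ℕ, ∃ T : Finset ℕ, g ∈ F → (match g with
      | Sum.inl g => u ∈ g.2.v n a
      | Sum.inr g => u ∈ g.2.v n T) := by
    intro g
    by_cases hg : g ∈ F
    · have h1 := hdd' g hg
      cases g with
      | inl g =>
        obtain ⟨a, ha⟩ := h1
        exact ⟨a, ∅, fun _ => RO.mem_down ha hu1⟩
      | inr g =>
        obtain ⟨T, hT⟩ := h1
        exact ⟨0, T, fun _ => RO.mem_down hT hu1⟩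
    · exact ⟨0, ∅, fun h => absurd h hg⟩
  choose va vT hv using hval
  obtain ⟨m1, hm1⟩ := sig_surj n (F.image va) (Finset.card_image_le.trans hn)
  obtain ⟨m2, hm2⟩ : ∃ m2, m2 ∉ F.biUnion vT := Infinite.exists_notMem_finset _
  let q1 := Fc.ov u (Fc.one (e (α, false), n) m1)
  let q2 := Fc.ov q1 (Fc.one (e (α, true), n) m2)
  have hq1 : q1 ≤ u := Fc.ov_le_left _ _
  have hq2 : q2 ≤ q1 := Fc.ov_le_left _ _
  have hne : ((e (α, true), n) : Θ × ℕ) ≠ (e (α, false), n) := by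
    intro h
    have h1 := he (Prod.mk.inj h).1
    simp at h1
  have hf1 : q1.f (e (α, false), n) = some m1 := by
    have h1 : u.f (e (α, false), n) = none := by rw [huf α le_rfl, hq]
    have h2 : (Fc.one (e (α, false), n) m1 : Po Θ ℕ).f (e (α, false), n) = some m1 :=
      Fc.one_some.2 ⟨rfl, rfl⟩
    simp [q1, Fc.ov, h1, h2]
  have hone : ∀ (x y : Θ × ℕ) (m : ℕ), y ≠ x → (Fc.one x m : Po Θ ℕ).f y = none := by
    intro x y m hxy
    simp [Fc.one, hxy]
  have hf2 : q2.f (e (α, true), n) = some m2 := by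
    have h1 : u.f (e (α, true), n) = none := by rw [huf α le_rfl, hq]
    have h2 : q1.f (e (α, true), n) = none := by
      simp [q1, Fc.ov, h1, hone _ _ m1 hne]
    have h3 : (Fc.one (e (α, true), n) m2 : Po Θ ℕ).f (e (α, true), n) = some m2 :=
      Fc.one_some.2 ⟨rfl, rfl⟩
    simp [q2, Fc.ov, h2, h3]
  refine ⟨q2, hq2.trans (hq1.trans hu2), ?_, ?_⟩
  · intro g hg
    have h1 := hv g hg
    have h3 := hidx g hg
    cases g with
    | inl g =>
      have h4 : g.1 = α := h3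
      refine ⟨va (Sum.inl g), F.image va, Finset.mem_image_of_mem _ hg,
        RO.mem_down h1 (hq2.trans hq1), ?_⟩
      rw [h4]
      exact mem_gs (hq2 _ _ hf1) hm1
    | inr g =>
      have h4 : g.1 = α := h3
      refine ⟨m2, vT (Sum.inr g), fun h => hm2 (Finset.mem_biUnion.2 ⟨_, hg, h⟩), ?_,
        RO.mem_down h1 (hq2.trans hq1)⟩
      rw [h4]
      exact mem_gs hf2 rfl
  · intro β hβ b m
    have h1 : ∀ b', ((e (β, b), m) : Θ × ℕ) ≠ (e (α, b'), n) := by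
      intro b' h
      have h2 := he (Prod.mk.inj h).1
      exact hβ.ne' (Prod.mk.inj h2).1
    have h2 : q1.f (e (β, b), m) = u.f (e (β, b), m) := by
      simp [q1, Fc.ov, hone _ _ m1 (h1 false)]
    have h3 : q2.f (e (β, b), m) = q1.f (e (β, b), m) := by
      simp [q2, Fc.ov, hone _ _ m2 (h1 true)]
    rw [h3, h2, huf β hβ.le]

/-- all positions are treated -/
theorem Gi.handle {e : K × Bool → Θ} (he : Function.Injective e) (F : Finset (Gi Θ K))
    (hF : ∀ g ∈ F, g.good e) {n : ℕ} (hn : F.card ≤ n) (Λ : Finset K) :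
    ∀ p : Po Θ ℕ, (∀ α ∈ Λ, ∀ b, p.f (e (α, b), n) = none) →
    ∃ q ≤ p, (∀ g ∈ F, g.idx ∈ Λ → g.hd e n q) ∧
      ∀ β, (∀ α ∈ Λ, α < β) → ∀ b m, q.f (e (β, b), m) = p.f (e (β, b), m) := by
  classical
  induction Λ using Finset.induction_on_max with
  | empty => exact fun p _ => ⟨p, le_rfl, by simp, fun _ _ _ _ => rfl⟩
  | insert α Λ hα ih =>
    intro p hp
    obtain ⟨q, hq, h1, h2⟩ := ih p fun β hβ b => hp β (Finset.mem_insert_of_mem hβ) b
    obtain ⟨q', hq', h3, h4⟩ := Gi.step he α (F.filter fun g => g.idx = α)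
      (fun g hg => hF g (Finset.mem_filter.1 hg).1) (fun g hg => (Finset.mem_filter.1 hg).2)
      ((Finset.card_filter_le _ _).trans hn) q
      (fun b => by rw [h2 α hα]; exact hp α (Finset.mem_insert_self _ _) b)
    refine ⟨q', hq'.trans hq, ?_, ?_⟩
    · intro g hg hidx
      rcases Finset.mem_insert.1 hidx with h | h
      · exact h3 g (Finset.mem_filter.2 ⟨hg, h⟩)
      · exact Gi.hd_mono hq' (h1 g hg h)
    · intro β hβ b m
      rw [h4 β (hβ α (Finset.mem_insert_self _ _)), h2 β fun γ hγ =>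
        hβ γ (Finset.mem_insert_of_mem hγ)]

/-- the ideal is proper -/
theorem Gi.proper {e : K × Bool → Θ} (he : Function.Injective e)
    (F : Finset {g : Gi Θ K // g.good e}) (N : ℕ) :
    (⨅ n, ⨅ (_ : N ≤ n), ⨆ g ∈ F, g.1.val e n) = ⊥ := by
  classical
  refine le_antisymm (fun p hp => ?_) bot_le
  obtain ⟨N', hN'⟩ := exists_free_all p
  let F' : Finset (Gi Θ K) := F.image Subtype.val
  let n := max N (max N' F'.card)
  have h1 := RO.mem_iInf.1 (RO.mem_iInf.1 hp n) (le_max_left _ _)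
  obtain ⟨q, hq, hhd, _⟩ := Gi.handle he F' (by
      intro g hg
      obtain ⟨g', _, rfl⟩ := Finset.mem_image.1 hg
      exact g'.2) (n := n) ((le_max_right _ _).trans (le_max_right _ _)) (F'.image Gi.idx) p
    (fun α _ b => hN' _ _ ((le_max_left _ _).trans (le_max_right _ _)))
  obtain ⟨r, hr, g, h2⟩ := RO.mem_iSup.1 h1 q hq
  obtain ⟨r', hr', hg, h3⟩ := RO.mem_iSup.1 h2 r le_rfl
  have hg' : g.1 ∈ F' := Finset.mem_image_of_mem _ hg
  exact absurd h3 (Gi.notMem_of_hd (Gi.hd_mono (hr'.trans hr)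
    (hhd g.1 hg' (Finset.mem_image_of_mem _ hg'))))

/-- few names have a common level -/
theorem exists_lev [WellFoundedLT K] {e : K × Bool → Θ} (he : Function.Injective e)
    {ν : Cardinal.{0}} (h0 : ℵ₀ ≤ ν) (hν : ν < Order.cof K) {I β : Type} [Countable β]
    (hI : #I ≤ ν) (x : I → Fun (RO (Po Θ ℕ)) ℕ β) : ∃ α, ∀ i, lev e α (x i) := by
  classical
  have hc : #(I × ℕ × β) ≤ ν := by
    rw [Cardinal.mk_prod, Cardinal.lift_id, Cardinal.lift_id]
    exact (mul_le_mul' hI ((Cardinal.mk_le_aleph0 (α := ℕ × β)).trans h0)).trans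
      (Cardinal.mul_eq_self h0).le
  obtain ⟨S, hS1, hS2⟩ := common_supp (Θ := Θ) (M := ℕ) (μ := ℵ₀) (le_refl _)
    Cardinal.mk_nat.le h0 hc (fun i => (x i.1).v i.2.1 i.2.2)
  let R : Set K := {β | ∃ b, e (β, b) ∈ S}
  have hR : #R ≤ ν := by
    refine le_trans ?_ hS1
    choose b hb using fun β : R => β.2
    refine Cardinal.mk_le_of_injective (f := fun β : R => ⟨e (β, b β), hb β⟩) ?_
    intro β β' h
    have h1 := he (congrArg Subtype.val h)
    exact Subtype.ext (Prod.mk.inj h1).1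
  have h2 : ¬ IsCofinal R := fun h => (Order.cof_le h).not_gt (hR.trans_lt hν)
  rw [IsCofinal] at h2
  push Not at h2
  obtain ⟨α, hα⟩ := h2
  refine ⟨α, fun i n b => ?_⟩
  have h3 : Sp S ((x i).v n b) := hS2 (i, n, b)
  refine h3.mono ?_
  intro θ hθ β b' hβ hcon
  have h4 := hα β ⟨b', by rw [← hcon]; exact hθ⟩
  exact absurd hβ (not_le.2 h4)

/-- the ideal -/
noncomputable def JJ (e : K × Bool → Θ) : (ℕ → RO (Po Θ ℕ)) → RO (Po Θ ℕ) :=
  idl fun (g : {g : Gi Θ K // g.good e}) => g.1.val e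

/-- **The slalom number of the ideal.** -/
theorem slalom_main [WellFoundedLT K] {e : K × Bool → Θ} (he : Function.Injective e)
    (h0 : ℵ₀ < Order.cof K) (hK : Order.cof K = #K) :
    isIdeal (JJ e) = ⊤ ∧
    (∃ s : K → Fun (RO (Po Θ ℕ)) ℕ (Finset ℕ), (∀ a, isSlalom (fun n => n) (s a) = ⊤) ∧
      ∀ x, ⨆ a, (JJ e (inn x (s a)))ᶜ = ⊤) ∧
    ∀ I : Type, #I < #K → ∀ s : I → Fun (RO (Po Θ ℕ)) ℕ (Finset ℕ),
      ⨆ x, ⨅ i, JJ e (inn x (s i)) = ⊤ := by
  have hid : isIdeal (JJ e) = ⊤ := isIdeal_idl _ (Gi.proper he)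
  have htop : JJ e ⊤ = ⊥ := by
    unfold JJ idl
    simp only [Pi.top_apply, top_himp]
    rw [eq_bot_iff]
    exact iSup_le fun F => iSup_le fun N => (Gi.proper he F N).le
  refine ⟨hid, ⟨SS e, ?_, ?_⟩, ?_⟩
  · intro a
    rw [RO.eq_top_iff']
    intro p
    unfold isSlalom
    rw [RO.mem_iInf]
    intro n
    refine RO.mem_iSup.2 fun q _ => ?_
    have h1 : ∃ r ≤ q, ∃ m, r.f (e (a, false), n) = some m := by
      cases h : q.f (e (a, false), n) with
      | some m => exact ⟨q, le_rfl, m, h⟩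
      | none =>
        obtain ⟨r, hr, hm⟩ := Fc.exists_one h 0
        exact ⟨r, hr, 0, hm⟩
    obtain ⟨r, hr, m, hm⟩ := h1
    exact ⟨r, hr, sig n m, RO.mem_iSup.2 fun r' hr' => ⟨r', le_rfl, sig_card n m,
      RO.mem_down (mem_gs hm rfl) hr'⟩⟩
  · intro x
    obtain ⟨α, hα⟩ := exists_lev he (le_refl ℵ₀) h0 (I := Unit)
      (Cardinal.mk_le_aleph0 (α := Unit)) (fun _ => x)
    have h1 : JJ e (fun n => (inn x (SS e α) n)ᶜ) = ⊤ :=
      idl_gen (fun (g : {g : Gi Θ K // g.good e}) => g.1.val e) ⟨Sum.inl (α, x), hα ()⟩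
    have h2 : JJ e (inn x (SS e α)) = ⊥ := by
      have h3 := idl_union (fun (g : {g : Gi Θ K // g.good e}) => g.1.val e)
        (inn x (SS e α)) (fun n => (inn x (SS e α) n)ᶜ)
      have h4 : (inn x (SS e α)) ⊔ (fun n => (inn x (SS e α) n)ᶜ) = ⊤ := by
        funext n
        exact sup_compl_eq_top
      rw [h4] at h3
      have h5 : JJ e (inn x (SS e α)) ⊓ JJ e (fun n => (inn x (SS e α) n)ᶜ) ≤ JJ e ⊤ := h3
      rw [h1, htop, inf_top_eq] at h5
      exact le_antisymm h5 bot_le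
    rw [eq_top_iff]
    refine le_iSup_of_le α ?_
    rw [h2, compl_bot]
  · intro I hI s
    obtain ⟨α, hα⟩ : ∃ α, ∀ i, lev e α (s i) := by
      rcases le_total ℵ₀ #I with h | h
      · exact exists_lev he h (hI.trans_eq hK.symm) le_rfl s
      · exact exists_lev he (le_refl ℵ₀) h0 h s
    rw [eq_top_iff]
    refine le_iSup_of_le (CC e α) (le_iInf fun i => ?_)
    have h1 : JJ e (fun n => inn (CC e α) (s i) n) = ⊤ :=
      idl_gen (fun (g : {g : Gi Θ K // g.good e}) => g.1.val e) ⟨Sum.inr (α, s i), hα i⟩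
    exact h1.ge

end

/-- **Many slalom numbers.** -/
theorem manySlalom : ∃ (B : Type) (_ : CompleteBooleanAlgebra B) (Λ : Type) (K : Λ → Type),
    (⊥ : B) ≠ ⊤ ∧ (∀ X Y : Type, ℵ₀ < #Y → #X < #Y → noSurj B X Y = ⊤) ∧
    (∀ l l', l ≠ l' → #(K l) ≠ #(K l')) ∧
    (∃ y : Λ → Fun B ℕ ℕ, ∀ x, ⨆ l, eqv (y l) x = ⊤) ∧
    ∀ l, ℵ₀ < #(K l) ∧ ∃ J : (ℕ → B) → B, isIdeal J = ⊤ ∧
      (∃ s : K l → Fun B ℕ (Finset ℕ), (∀ a, isSlalom (fun n => n) (s a) = ⊤) ∧
        ∀ x, ⨆ a, (J (inn x (s a)))ᶜ = ⊤) ∧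
      ∀ I : Type, #I < #(K l) → ∀ s : I → Fun B ℕ (Finset ℕ),
        ⨆ x, ⨅ i, J (inn x (s i)) = ⊤ := by
  classical
  obtain ⟨c, h0, hsl, hfix, hcof⟩ := exists_fix
  let Θ : Type := c.out
  have hΘ : #Θ = c := Cardinal.mk_out c
  obtain ⟨Λ, o, hΛ, ho, hoi⟩ : ∃ (Λ : Type) (o : Λ → Ordinal.{0}), #Λ = c ∧
      (∀ l, o l < c.ord) ∧ ∀ l l', o l = o l' → l = l' :=
    ⟨c.ord.ToType, fun l => Ordinal.typein (α := c.ord.ToType) (· < ·) l,
      Cardinal.mk_ord_toType c, fun l => Ordinal.typein_lt_self l,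
      fun l l' h => Ordinal.typein_injective _ h⟩
  let K : Λ → Type := fun l => (Cardinal.ord (ℵ_ (o l + 1))).ToType
  have hK : ∀ l, #(K l) = ℵ_ (o l + 1) := fun l => Cardinal.mk_ord_toType _
  have hnames : #(Fun (RO (Po Θ ℕ)) ℕ ℕ) ≤ c := card_names hsl hcof hΘ.le
  refine ⟨RO (Po Θ ℕ), inferInstance, Λ, K, nontriv, ?_, ?_, ?_, ?_⟩
  · intro X Y hY hXY
    exact noSurj_eq_top (le_refl ℵ₀) Cardinal.mk_nat.le hXY hY
  · intro l l' hl h
    rw [hK, hK] at h
    have h1 := Cardinal.aleph.injective h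
    have h2 : o l = o l' := by simpa using h1
    exact hl (hoi l l' h2)
  · have h1 : #(Fun (RO (Po Θ ℕ)) ℕ ℕ) ≤ #Λ := by rw [hΛ]; exact hnames
    obtain ⟨j⟩ := h1
    obtain ⟨θ⟩ : Nonempty Θ := by
      rw [← Cardinal.mk_ne_zero_iff, hΘ]
      exact (Cardinal.aleph0_pos.trans h0).ne'
    have : Nonempty (Fun (RO (Po Θ ℕ)) ℕ ℕ) := ⟨gs θ fun _ m => m⟩
    refine ⟨Function.invFun j, fun x => ?_⟩
    rw [eq_top_iff]
    refine le_iSup_of_le (j x) ?_
    rw [Function.leftInverse_invFun j.injective]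
    intro p _
    rw [mem_eqv]
    exact fun a q _ b b' hb hb' => Fun.uniq hb hb'
  · intro l
    have hinf : ℵ₀ < ℵ_ (o l + 1) := by
      rw [Cardinal.aleph0_lt_aleph]
      exact Order.lt_add_one_iff.2 zero_le
    have hreg : (ℵ_ (o l + 1)).IsRegular := by
      rw [← Cardinal.succ_aleph]
      exact Cardinal.isRegular_succ (Cardinal.aleph0_le_aleph _)
    have hcofK : Order.cof (K l) = ℵ_ (o l + 1) := by
      rw [Ordinal.cof_toType]
      exact hreg.cof_ord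
    obtain ⟨e⟩ : Nonempty (K l × Bool ↪ Θ) := by
      have h : #(K l × Bool) ≤ #Θ := by
        rw [Cardinal.mk_prod, Cardinal.lift_id, Cardinal.lift_id, hK, hΘ]
        have h1 : #Bool ≤ c := (Cardinal.mk_le_aleph0 (α := Bool)).trans h0.le
        exact (mul_le_mul' (hfix _ (ho l)).le h1).trans (Cardinal.mul_eq_self h0.le).le
      exact h
    refine ⟨by rw [hK]; exact hinf, JJ e, ?_⟩
    exact slalom_main e.injective (by rw [hcofK]; exact hinf) (by rw [hcofK, hK])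

end CpB
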